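import Pool.Agent.Q139.ID.Stm

set_option autoImplicit false

/-! Elementary facts for all jobs. -/

namespace Pool.Agent.Q139.ID

theorem s3 : √3 * √3 = (3 : ℝ) := Real.mul_self_sqrt (by norm_num)
theorem s3pos : (0 : ℝ) < √3 := Real.sqrt_pos.2 (by norm_num)

@[simp] theorem ze_re : ze.re = 1 / 2 := rfl
@[simp] theorem ze_im : ze.im = √3 / 2 := rfl

@[simp] theorem pos_re (x : ℤ × ℤ) : (pos x).re = x.1 + x.2 / 2 := by
  simp [pos, Complex.mul_re]; ring
@[simp] theorem pos_im (x : ℤ × ℤ) : (pos x).im = x.2 * (√3 / 2) := by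
  simp [pos, Complex.mul_im]

theorem pos_add (x y : ℤ × ℤ) : pos (x + y) = pos x + pos y := by
  simp [pos]; ring
theorem pos_neg (x : ℤ × ℤ) : pos (-x) = -pos x := by
  simp [pos]; ring
theorem pos_sub (x y : ℤ × ℤ) : pos (x - y) = pos x - pos y := by
  simp [pos]; ring
@[simp] theorem pos_zero : pos (0, 0) = 0 := by simp [pos]
@[simp] theorem pos_zero' : pos 0 = 0 := by simp [pos]
@[simp] theorem pos_one : pos (1, 0) = 1 := by simp [pos]
@[simp] theorem pos_ze : pos (0, 1) = ze := by simp [pos]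

theorem sq_norm (z : ℂ) : ‖z‖ ^ 2 = z.re ^ 2 + z.im ^ 2 := by
  rw [← Complex.normSq_eq_norm_sq, Complex.normSq_apply]; ring

theorem sq_norm_pos (x : ℤ × ℤ) :
    ‖pos x‖ ^ 2 = ((x.1 ^ 2 + x.1 * x.2 + x.2 ^ 2 : ℤ) : ℝ) := by
  rw [sq_norm, pos_re, pos_im]
  push_cast
  nlinarith [s3]

theorem norm_ze : ‖ze‖ = 1 := by
  have h := sq_norm_pos (0, 1)
  rw [pos_ze] at h
  norm_num at h
  rcases h with h | h
  · exact h
  · linarith [norm_nonneg ze]

theorem ze_sq : ze * ze = ze - 1 := by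
  apply Complex.ext
  · simp [Complex.mul_re]; nlinarith [s3]
  · simp [Complex.mul_im]; ring

theorem pos_inj {x y : ℤ × ℤ} (h : pos x = pos y) : x = y := by
  have h1 := congrArg Complex.re h
  have h2 := congrArg Complex.im h
  rw [pos_re, pos_re] at h1
  rw [pos_im, pos_im] at h2
  have h3 : (x.2 : ℝ) = y.2 := by
    have : (√3 / 2 : ℝ) ≠ 0 := by have := s3pos; positivity
    exact mul_right_cancel₀ this h2
  have h4 : (x.1 : ℝ) = y.1 := by rw [h3] at h1; linarith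
  exact Prod.ext (by exact_mod_cast h4) (by exact_mod_cast h3)

/-- Distinct lattice points have distance at least one. -/
theorem one_le_dist {x y : ℤ × ℤ} (h : x ≠ y) : 1 ≤ dist (pos x) (pos y) := by
  rw [dist_eq_norm, ← pos_sub]
  have h1 := sq_norm_pos (x - y)
  have h2 : 1 ≤ ((x - y).1 ^ 2 + (x - y).1 * (x - y).2 + (x - y).2 ^ 2 : ℤ) := by
    have h3 : x - y ≠ 0 := sub_ne_zero.2 h
    by_contra hc
    push Not at hc
    apply h3
    have h4 : (x - y).1 = 0 ∧ (x - y).2 = 0 := by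
      constructor
      · by_contra h5
        have : 0 < (x - y).1 ^ 2 := by positivity
        nlinarith [sq_nonneg ((x - y).1 + 2 * (x - y).2)]
      · by_contra h5
        have : 0 < (x - y).2 ^ 2 := by positivity
        nlinarith [sq_nonneg (2 * (x - y).1 + (x - y).2)]
    exact Prod.ext h4.1 h4.2
  have h3 : (1 : ℝ) ≤ ‖pos (x - y)‖ ^ 2 := by rw [h1]; exact_mod_cast h2
  nlinarith [norm_nonneg (pos (x - y))]

theorem dist_lt_one {x y : ℤ × ℤ} (h : dist (pos x) (pos y) < 1) : x = y := by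
  by_contra hc
  linarith [one_le_dist hc]

/-! ### Hexagons -/

theorem mem_hex (c z : ℂ) : z ∈ Hex c ↔ |(z - c).re| ≤ 1 / 2 ∧
    |(z - c).re / 2 + √3 / 2 * (z - c).im| ≤ 1 / 2 ∧
    |(z - c).re / 2 - √3 / 2 * (z - c).im| ≤ 1 / 2 := Iff.rfl

theorem mem_hex_sub (c z : ℂ) : z ∈ Hex c ↔ z - c ∈ Hex 0 := by
  rw [mem_hex, mem_hex, sub_zero]

theorem mem_hex_add (c z v : ℂ) : z + v ∈ Hex (c + v) ↔ z ∈ Hex c := by
  rw [mem_hex_sub, mem_hex_sub c, add_sub_add_right_eq_sub]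

theorem neg_mem_hex {z : ℂ} (h : z ∈ Hex 0) : -z ∈ Hex 0 := by
  rw [mem_hex] at h ⊢
  simp only [sub_zero, Complex.neg_re, Complex.neg_im] at h ⊢
  obtain ⟨h0, h1, h2⟩ := h
  refine ⟨by rwa [abs_neg], ?_, ?_⟩
  · rw [show -z.re / 2 + √3 / 2 * -z.im = -(z.re / 2 + √3 / 2 * z.im) by ring, abs_neg]
    exact h1
  · rw [show -z.re / 2 - √3 / 2 * -z.im = -(z.re / 2 - √3 / 2 * z.im) by ring, abs_neg]
    exact h2

theorem ze_mul_mem_hex {z : ℂ} (h : z ∈ Hex 0) : ze * z ∈ Hex 0 := by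
  rw [mem_hex] at h ⊢
  simp only [sub_zero, Complex.mul_re, Complex.mul_im, ze_re, ze_im] at h ⊢
  obtain ⟨h0, h1, h2⟩ := h
  refine ⟨?_, ?_, ?_⟩
  · rw [show 1 / 2 * z.re - √3 / 2 * z.im = z.re / 2 - √3 / 2 * z.im by ring]
    exact h2
  · have : (1 / 2 * z.re - √3 / 2 * z.im) / 2 + √3 / 2 * (1 / 2 * z.im + √3 / 2 * z.re)
        = z.re := by linear_combination (z.re / 4) * s3
    rw [this]; exact h0
  · have : (1 / 2 * z.re - √3 / 2 * z.im) / 2 - √3 / 2 * (1 / 2 * z.im + √3 / 2 * z.re)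
        = -(z.re / 2 + √3 / 2 * z.im) := by linear_combination (-z.re / 4) * s3
    rw [this, abs_neg]; exact h1

theorem ze_pow_mul_mem_hex (n : ℕ) {z : ℂ} (h : z ∈ Hex 0) : ze ^ n * z ∈ Hex 0 := by
  induction n with
  | zero => simpa using h
  | succ n ih =>
    rw [pow_succ', mul_assoc]
    exact ze_mul_mem_hex ih

theorem ze_pow_six : ze ^ 6 = 1 := by
  have h := ze_sq
  have h3 : ze ^ 3 = -1 := by linear_combination (ze + 1) * h
  calc ze ^ 6 = (ze ^ 3) ^ 2 := by ring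
    _ = 1 := by rw [h3]; norm_num

/-- `Hex 0` is invariant under rotation by multiples of `60°`. -/
theorem ze_pow_mul_mem_hex_iff (n : ℕ) {z : ℂ} : ze ^ n * z ∈ Hex 0 ↔ z ∈ Hex 0 := by
  refine ⟨fun h => ?_, ze_pow_mul_mem_hex n⟩
  have h1 := ze_pow_mul_mem_hex (5 * n) h
  rw [← mul_assoc, ← pow_add, show 5 * n + n = 6 * n by ring, pow_mul, ze_pow_six, one_pow,
    one_mul] at h1
  exact h1

open ComplexConjugate in
theorem conj_mem_hex {z : ℂ} : conj z ∈ Hex 0 ↔ z ∈ Hex 0 := by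
  rw [mem_hex, mem_hex]
  simp only [sub_zero, Complex.conj_re, Complex.conj_im, mul_neg, sub_neg_eq_add]
  rw [show z.re / 2 + -(√3 / 2 * z.im) = z.re / 2 - √3 / 2 * z.im by ring]
  tauto

theorem isClosed_hex (c : ℂ) : IsClosed (Hex c) := by
  have h0 : Continuous fun z : ℂ => |(z - c).re| := by
    have := Complex.continuous_re; fun_prop
  have h1 : Continuous fun z : ℂ => |(z - c).re / 2 + √3 / 2 * (z - c).im| := by
    have := Complex.continuous_re; have := Complex.continuous_im; fun_prop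
  have h2 : Continuous fun z : ℂ => |(z - c).re / 2 - √3 / 2 * (z - c).im| := by
    have := Complex.continuous_re; have := Complex.continuous_im; fun_prop
  exact (isClosed_le h0 continuous_const).inter
    ((isClosed_le h1 continuous_const).inter (isClosed_le h2 continuous_const))

theorem convex_hex (c : ℂ) : Convex ℝ (Hex c) := by
  intro z hz w hw a b ha hb hab
  obtain ⟨hz0, hz1, hz2⟩ := hz
  obtain ⟨hw0, hw1, hw2⟩ := hw
  have hb' : b = 1 - a := by linarith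
  subst hb'
  rw [abs_le] at hz0 hz1 hz2 hw0 hw1 hw2
  rw [mem_hex]
  simp only [Complex.sub_re, Complex.sub_im, Complex.add_re, Complex.add_im, Complex.smul_re,
    Complex.smul_im, smul_eq_mul] at *
  refine ⟨abs_le.2 ⟨by nlinarith, by nlinarith⟩, abs_le.2 ⟨by nlinarith, by nlinarith⟩,
    abs_le.2 ⟨by nlinarith, by nlinarith⟩⟩

theorem mem_hex_self (c : ℂ) : c ∈ Hex c := by
  rw [mem_hex]; simp

/-! ### Isometries of the plane -/

open ComplexConjugate in
/-- Every isometry of `ℂ` is `z ↦ a z + b` or `z ↦ a z̄ + b` with `|a| = 1`. -/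
theorem isometry_form (g : ℂ ≃ᵢ ℂ) : ∃ a b : ℂ, ‖a‖ = 1 ∧
    ((∀ z, g z = a * z + b) ∨ ∀ z, g z = a * conj z + b) := by
  set h : ℂ ≃ᵢ ℂ := g.trans (IsometryEquiv.subRight (g 0)) with hh
  have h0 : h 0 = 0 := by simp [hh]
  obtain ⟨a, ha⟩ := linear_isometry_complex (h.toRealLinearIsometryEquivOfMapZero h0)
  refine ⟨a, g 0, Circle.norm_coe a, ?_⟩
  rcases ha with ha | ha
  · left
    intro z
    have h1 : (h.toRealLinearIsometryEquivOfMapZero h0) z = g z - g 0 := by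
      rw [IsometryEquiv.coe_toRealLinearIsometryEquivOfMapZero]; simp [hh]
    rw [ha] at h1
    rw [rotation_apply] at h1
    rw [h1]; ring
  · right
    intro z
    have h1 : (h.toRealLinearIsometryEquivOfMapZero h0) z = g z - g 0 := by
      rw [IsometryEquiv.coe_toRealLinearIsometryEquivOfMapZero]; simp [hh]
    rw [ha] at h1
    rw [LinearIsometryEquiv.trans_apply, rotation_apply, Complex.conjLIE_apply] at h1
    rw [h1]; ring

/-- Isometries of `ℂ` are affine. -/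
theorem isometry_affine (g : ℂ ≃ᵢ ℂ) (x y : ℝ) (z w : ℂ) :
    g (x * z + y * w) = g 0 + x * (g z - g 0) + y * (g w - g 0) := by
  obtain ⟨a, b, -, h | h⟩ := isometry_form g
  · simp only [h]; ring
  · simp only [h, map_add, map_mul, Complex.conj_ofReal, map_zero]; ring

theorem mem_S0 {s : ℤ × ℤ} (h : s ∈ S0) : s = (0, 0) ∨ s = (1, 0) ∨ s = (0, 4) ∨ s = (1, 4) := by
  simpa [S0] using h

theorem mem_T (z : ℂ) : z ∈ T ↔ ∃ s ∈ S0, z ∈ Hex (pos s) := Iff.rfl

theorem image_T (g : ℂ ≃ᵢ ℂ) (z : ℂ) : z ∈ g '' T ↔ ∃ s ∈ S0, z ∈ g '' Hex (pos s) := by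
  constructor
  · rintro ⟨w, ⟨s, hs, hw⟩, rfl⟩
    exact ⟨s, hs, w, hw, rfl⟩
  · rintro ⟨s, hs, w, hw, rfl⟩
    exact ⟨w, ⟨s, hs, hw⟩, rfl⟩

end Pool.Agent.Q139.ID
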