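import Pool.Agent.Q139.ID.Stm

set_option autoImplicit false

/-! The combinatorial contradiction: a certificate tree checked by the kernel. -/

namespace Pool.Agent.Q139.ID

namespace Aff

/-- The inverse, if the determinant is one or minus one. -/
def inv (A : Aff) : Aff :=
  let e := A.a * A.d - A.b * A.c
  ⟨e * A.d, -(e * A.b), -(e * A.c), e * A.a, -(e * A.d * A.u) + e * A.b * A.v,
    e * A.c * A.u - e * A.a * A.v⟩

end Aff

/-- The product of a word: the letter `2k` is the generator number `k`, the letter `2k+1` its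
inverse. -/
def ev (gens : List Aff) : List ℕ → Aff
  | [] => Aff.one
  | i :: w => ((if i % 2 = 0 then gens.getD (i / 2) Aff.one
      else (gens.getD (i / 2) Aff.one).inv)).mul (ev gens w)

/-- Elements that map a cell of the prototile to a cell of the prototile, but are not symmetries
of the prototile. -/
def bad (A : Aff) : Bool :=
  A != Aff.one && A != sgA &&
    [((0 : ℤ), (0 : ℤ)), (1, 0), (0, 4), (1, 4)].any
      (fun s => [((0 : ℤ), (0 : ℤ)), (1, 0), (0, 4), (1, 4)].contains (A.act s))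

/-- The candidates for an element mapping the prototile onto the tile with the cell `(x, y)`. -/
def cands (x y : ℤ) : List Aff :=
  lin12.flatMap (fun m => [((0 : ℤ), (0 : ℤ)), (1, 0)].map (fun s =>
    (⟨m.1, m.2.1, m.2.2.1, m.2.2.2, x - (m.1 * s.1 + m.2.1 * s.2),
      y - (m.2.2.1 * s.1 + m.2.2.2 * s.2)⟩ : Aff)))

/-- Certificates: a list of entries, one for each candidate; an entry is a word giving a bad
element, or a new cell with a list of entries for its candidates. -/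
inductive Tr where
  | nil : Tr
  | w : List ℕ → Tr → Tr
  | n : ℤ → ℤ → Tr → Tr → Tr

def chk : Tr → List Aff → List Aff → Bool
  | .nil, _, cs => cs.isEmpty
  | .w l t, gens, cs =>
    match cs with
    | [] => false
    | g :: cs' => (g.mul g.inv == Aff.one) && bad (ev (gens ++ [g]) l) && chk t gens cs'
  | .n x y c t, gens, cs =>
    match cs with
    | [] => false
    | g :: cs' => (g.mul g.inv == Aff.one) && chk c (gens ++ [g]) (cands x y) && chk t gens cs'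

def cert : Tr :=
  (.w [2, 2, 2, 2] (.n (-2) 4 (.w [2, 2, 2, 2, 5, 5] (.w [2, 2, 2, 2, 5] (.w [2, 2, 4, 4] (.w
  [2, 4] (.w [2, 2, 5] (.w [2, 2, 5] (.w [3, 3, 5] (.w [2, 5, 5] (.w [5, 2, 4] (.w [5, 2, 4] (.w
  [2, 4, 3, 5] (.w [3, 4, 2] (.w [3, 3, 3, 3, 4] (.w [3, 3, 3, 3, 4, 0, 4] (.w [2, 2, 2, 5] (.w
  [3, 3, 4, 0, 4] (.w [2, 4] (.w [2, 5] (.w [2, 2, 5] (.w [2, 2, 5] (.w [2, 4, 3] (.w [2, 5] (.w
  [2, 4, 2] (.w [4] .nil)))))))))))))))))))))))) (.w [3, 0, 2, 2, 2] (.w [2] (.n (-1) (-1) (.w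
  [2, 4] (.w [3, 3, 4] (.w [2, 4] (.w [4, 2, 4] (.w [2, 4] (.w [2, 5, 2] (.w [2, 0, 4] (.w [3,
  4] (.w [2, 2, 4] (.w [2, 2, 5] (.w [2, 2, 5] (.w [2, 4] (.w [2, 4, 3] (.w [2, 4] (.w [2, 4, 3]
  (.w [2, 4] (.w [2, 2, 5] (.w [2, 4] (.w [2, 2, 5] (.w [2, 2, 4] (.w [2, 4, 2] (.w [3, 5] (.w
  [2, 4] (.w [2, 5] .nil)))))))))))))))))))))))) (.w [2] (.w [2, 2, 2, 2] (.w [2] (.n (-2) 0 (.w
  [2, 4] (.w [2, 5, 2] (.w [2, 4, 2] (.w [2, 5, 2] (.w [2, 5] (.w [2, 0, 3, 4] (.w [2, 4, 2] (.w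
  [3, 5] (.w [2, 5, 3, 4] (.w [2, 5, 2] (.w [2, 4, 3] (.w [2, 4] (.w [2, 4, 3] (.w [2, 4] (.w
  [3, 4, 2] (.w [2, 5, 5] (.w [2, 4, 3] (.w [3, 5] (.w [2, 5] (.w [2, 5, 2] (.w [2, 4, 2] (.w
  [2, 4, 4] (.w [2, 4] (.w [2, 0, 2, 4] .nil)))))))))))))))))))))))) (.w [2] (.n (-2) 2 (.w [2,
  2, 5] (.w [2, 4, 2] (.w [2, 2, 4] (.w [2, 2, 4] (.w [2, 4, 2] (.w [2, 2, 5] (.w [2, 4] (.w [3,
  4] (.w [2, 4] (.w [3, 4] (.w [2, 4, 2] (.w [2, 2, 5] (.w [2, 4, 3] (.w [3, 3, 4] (.w [2, 2, 5]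
  (.w [2, 4, 2] (.w [2, 2, 4] (.w [2, 5] (.w [3, 4] (.w [2, 4] (.w [3, 4] (.w [2, 4] (.w [2, 2,
  4] (.w [2, 2, 4] .nil)))))))))))))))))))))))) (.w [3, 0, 2, 2, 2] (.n (-1) (-1) (.w [2, 0, 2,
  4, 4] (.n (-2) 2 (.w [2, 4, 7] (.w [4, 4, 7] (.w [5, 6] (.w [4, 6] (.w [5, 6] (.w [2, 4, 7]
  (.w [2, 5, 7] (.w [2, 6] (.w [5, 7] (.w [2, 6] (.w [2, 6, 4] (.w [2, 4, 7] (.w [2, 6, 2] (.w
  [2, 6, 2] (.w [2, 4, 7] (.w [2, 7] (.w [5, 7] (.w [5, 6] (.w [2, 6] (.w [2, 0, 2, 6] (.w [2,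
  6] (.w [4, 7] (.w [2, 4, 6] (.w [2, 4, 6] .nil)))))))))))))))))))))))) (.w [4, 2, 4] (.w [2,
  4, 2] (.w [2, 4, 4] (.w [2, 0, 2, 4] (.w [2, 4, 4] (.w [4, 4] (.w [2, 0, 2, 4, 2] (.w [2, 4,
  2] (.w [2, 4, 4, 4] (.w [2, 5] (.w [2, 0, 2, 4, 2] (.w [2, 4, 2, 4] (.w [2, 0, 2, 4] (.w [2,
  4, 4] (.w [2, 0, 2, 4] (.w [2, 5] (.w [2, 4, 4] (.w [2, 4, 2, 4] (.n (-2) 1 (.w [2, 6] (.w [5,
  7] (.w [4, 7] (.w [2, 7, 4] (.w [2, 4, 6] (.w [2, 4, 7] (.w [2, 6, 2] (.w [2, 7] (.w [5, 7]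
  (.w [5, 7] (.w [5, 7] (.w [2, 6] (.w [4, 6, 4] (.w [2, 6] (.w [2, 6, 4] (.w [2, 4, 6] (.w [4,
  7] (.w [4, 7] (.w [2, 4, 7] (.w [5, 7] (.w [2, 5, 6] (.w [6, 6] (.w [2, 6] (.w [4, 0, 7]
  .nil)))))))))))))))))))))))) (.w [2, 4, 4] (.w [2, 4, 2, 5] (.w [2, 0, 2, 4, 2]
  .nil)))))))))))))))))))))))) (.n 0 (-1) (.w [2, 5] (.w [2, 5] (.w [4] (.w [2, 0, 2, 4] (.w [4]
  (.w [2, 4, 4] (.w [2, 5] (.w [2, 5] (.w [2, 0, 2, 5] (.w [2, 0, 2, 4] (.w [2, 4, 4, 4] (.w [2,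
  5] (.w [2, 0, 2, 4, 2] (.w [2, 4, 2, 4] (.w [2, 5, 5] (.w [4] (.w [2, 4, 2] (.w [4] (.w [2, 4,
  2] (.w [2, 4, 2, 4] (.w [2, 0, 2, 4] (.w [2, 5] (.w [4, 4] (.w [2, 4, 2, 5]
  .nil)))))))))))))))))))))))) (.w [2] (.n (-2) 5 (.w [2, 5] (.w [2, 0, 4, 3] (.w [3, 3, 4] (.w
  [3, 5] (.w [3, 3, 4] (.w [2, 2, 5] (.w [2, 5, 2] (.w [2, 0, 4] (.w [3, 4, 2] (.w [3, 5] (.w
  [2, 5] (.w [2, 0, 4] (.w [2, 0, 2, 4] (.w [2, 0, 4] (.w [2, 2, 5, 2] (.w [2, 2, 5] (.w [2, 4]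
  (.w [3, 5] (.w [2, 5] (.w [5, 2, 4] (.w [2, 0, 4] (.w [2, 2, 5] (.w [4, 4] (.w [4, 4]
  .nil)))))))))))))))))))))))) (.w [2] (.n (-2) 2 (.w [2, 4, 2] (.w [3, 5] (.w [2, 4, 3] (.w [2,
  5, 5] (.w [3, 5] (.w [2, 0, 4, 2] (.w [2, 5] (.w [2, 0, 5] (.w [2, 5] (.w [2, 4, 2] (.w [2, 5,
  2] (.w [2, 5, 5] (.w [2, 4, 2] (.w [2, 4, 0, 2] (.w [2, 4, 3] (.w [2, 5, 0, 2] (.w [3, 5] (.w
  [2, 0, 5] (.w [2, 5] (.w [2, 4, 2] (.w [2, 5] (.w [2, 0, 5] (.w [3, 5] (.w [3, 0, 5]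
  .nil)))))))))))))))))))))))) (.w [2] (.n (-2) 0 (.w [2, 5] (.w [5, 2, 4] (.w [2, 4] (.w [2, 4]
  (.w [2, 4, 2] (.w [2, 4, 3] (.w [3, 3, 3, 5] (.w [3, 5] (.w [3, 5] (.w [2, 5] (.w [2, 4, 2]
  (.w [2, 4, 3] (.w [3, 4, 2] (.w [2, 4, 2, 4] (.w [3, 5] (.w [2, 5] (.w [2, 4] (.w [2, 4] (.w
  [2, 5, 2] (.w [2, 4, 3, 5] (.w [2, 4] (.w [2, 4] (.w [2, 4] (.w [2, 4]
  .nil)))))))))))))))))))))))) (.w [2] (.w [2, 0, 3, 3] (.w [2, 2] (.w [2, 2]
  .nil))))))))))))))))))))))))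

theorem chk_cert : chk cert [sgA] (cands 0 1) = true := by decide +kernel

section
variable (G : Set Aff) (hmul : ∀ A ∈ G, ∀ B ∈ G, A.mul B ∈ G)
  (hinv : ∀ A ∈ G, ∀ B, A.mul B = Aff.one → B ∈ G) (hone : Aff.one ∈ G)

include hmul hone in
theorem ev_mem (gens : List Aff) (h : ∀ A ∈ gens, A ∈ G ∧ A.inv ∈ G) (l : List ℕ) :
    ev gens l ∈ G := by
  induction l with
  | nil => exact hone
  | cons i w ih =>
    rw [ev]
    refine hmul _ ?_ _ ih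
    by_cases hi : i / 2 < gens.length
    · have h1 : gens.getD (i / 2) Aff.one = gens[i / 2] := by
        rw [List.getD_eq_getElem _ _ hi]
      have h2 := h _ (List.getElem_mem hi)
      rw [h1]
      split_ifs
      · exact h2.1
      · exact h2.2
    · have h1 : gens.getD (i / 2) Aff.one = Aff.one := by
        rw [List.getD_eq_default _ _ (by omega)]
      rw [h1]
      have h2 : Aff.one.inv = Aff.one := by decide
      rw [h2]
      split_ifs <;> exact hone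

theorem bad_spec {A : Aff} (h : bad A = true) :
    A ≠ Aff.one ∧ A ≠ sgA ∧ ∃ s ∈ S0, A.act s ∈ S0 := by
  simp only [bad, Bool.and_eq_true, bne_iff_ne, List.any_eq_true, List.contains_eq_mem,
    decide_eq_true_eq] at h
  obtain ⟨⟨h1, h2⟩, s, hs, h3⟩ := h
  refine ⟨h1, h2, s, ?_, ?_⟩
  · simpa [S0] using hs
  · simpa [S0] using h3

variable (hbad : ∀ A ∈ G, (∃ s ∈ S0, A.act s ∈ S0) → A = Aff.one ∨ A = sgA)
  (hcov : ∀ x y : ℤ, ∃ A ∈ G, A ∈ cands x y)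

include hmul hinv hone hbad hcov in
theorem chk_sound (t : Tr) : ∀ gens cs : List Aff, chk t gens cs = true →
    (∀ A ∈ gens, A ∈ G ∧ A.inv ∈ G) → ∀ A ∈ cs, A ∉ G := by
  induction t with
  | nil =>
    intro gens cs h _ A hA
    simp only [chk, List.isEmpty_iff] at h
    subst h
    simp at hA
  | w l t ih =>
    intro gens cs h hg A hA hAG
    match cs, h, hA with
    | g :: cs', h, hA =>
      simp only [chk, Bool.and_eq_true, beq_iff_eq] at h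
      obtain ⟨⟨h1, h2⟩, h3⟩ := h
      rcases List.mem_cons.1 hA with rfl | hA
      · obtain ⟨n1, n2, n3⟩ := bad_spec h2
        have h4 : ev (gens ++ [A]) l ∈ G := by
          apply ev_mem G hmul hone
          intro B hB
          rcases List.mem_append.1 hB with hB | hB
          · exact hg B hB
          · rw [List.mem_singleton] at hB
            subst hB
            exact ⟨hAG, hinv _ hAG _ h1⟩
        rcases hbad _ h4 n3 with h5 | h5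
        · exact n1 h5
        · exact n2 h5
      · exact ih gens cs' h3 hg A hA hAG
  | n x y c t ihc iht =>
    intro gens cs h hg A hA hAG
    match cs, h, hA with
    | g :: cs', h, hA =>
      simp only [chk, Bool.and_eq_true, beq_iff_eq] at h
      obtain ⟨⟨h1, h2⟩, h3⟩ := h
      rcases List.mem_cons.1 hA with rfl | hA
      · obtain ⟨B, hB, hB'⟩ := hcov x y
        refine ihc (gens ++ [A]) _ h2 ?_ B hB' hB
        intro B hB
        rcases List.mem_append.1 hB with hB | hB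
        · exact hg B hB
        · rw [List.mem_singleton] at hB
          subst hB
          exact ⟨hAG, hinv _ hAG _ h1⟩
      · exact iht gens cs' h3 hg A hA hAG

end

theorem t_comb : S_comb := by
  intro G hmul hinv hsg hbad hcov
  have hone : Aff.one ∈ G := by
    have h := hmul _ hsg _ hsg
    have h1 : sgA.mul sgA = Aff.one := by decide
    rwa [h1] at h
  have hcov' : ∀ x y : ℤ, ∃ A ∈ G, A ∈ cands x y := by
    intro x y
    obtain ⟨A, hA, hl, s, hs, hx⟩ := hcov (x, y)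
    have key : ∀ B ∈ G, B.lin ∈ lin12 → ∀ s ∈ [((0 : ℤ), (0 : ℤ)), (1, 0)],
        B.act s = (x, y) → B ∈ cands x y := by
      intro B _ hB s hs hx
      rw [cands, List.mem_flatMap]
      refine ⟨B.lin, hB, ?_⟩
      rw [List.mem_map]
      refine ⟨s, hs, ?_⟩
      have e1 := congrArg Prod.fst hx
      have e2 := congrArg Prod.snd hx
      simp only [Aff.act] at e1 e2
      obtain ⟨a, b, c, d, u, v⟩ := B
      simp only [Aff.lin, Aff.mk.injEq, true_and]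
      simp only at e1 e2
      constructor <;> linarith
    have hs' : s ∈ [((0 : ℤ), (0 : ℤ)), (1, 0)] ∨
        ((1 - s.1, 4 - s.2) : ℤ × ℤ) ∈ [((0 : ℤ), (0 : ℤ)), (1, 0)] := by
      have : s = (0, 0) ∨ s = (1, 0) ∨ s = (0, 4) ∨ s = (1, 4) := by simpa [S0] using hs
      rcases this with rfl | rfl | rfl | rfl <;> decide
    rcases hs' with hs' | hs'
    · exact ⟨A, hA, key A hA hl s hs' hx⟩
    · refine ⟨A.mul sgA, hmul _ hA _ hsg, key _ (hmul _ hA _ hsg) ?_ _ hs' ?_⟩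
      · have h2 : ∀ m ∈ lin12, ((-m.1, -m.2.1, -m.2.2.1, -m.2.2.2) : ℤ × ℤ × ℤ × ℤ) ∈ lin12 := by
          decide
        have h3 := h2 _ hl
        simpa [Aff.mul, Aff.lin, sgA] using h3
      · rw [← hx]
        simp only [Aff.act, Aff.mul, sgA]
        ext <;> simp <;> ring
  obtain ⟨B, hB, hB'⟩ := hcov' 0 1
  refine chk_sound G hmul hinv hone hbad hcov' cert [sgA] _ chk_cert ?_ B hB' hB
  intro A hA
  rw [List.mem_singleton] at hA
  subst hA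
  exact ⟨hsg, hinv _ hsg _ (by decide)⟩

end Pool.Agent.Q139.ID
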