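import Pool.Agent.Q139.ID.Bas

set_option autoImplicit false

namespace Pool.Agent.Q139.ID

theorem ball_sub_hex (c : ℂ) : Metric.closedBall c (1 / 2) ⊆ Hex c := by
  intro z hz
  rw [Metric.mem_closedBall, dist_eq_norm] at hz
  have h0 := sq_norm (z - c)
  have h1 : ‖z - c‖ ^ 2 ≤ (1 / 2) ^ 2 := pow_le_pow_left₀ (norm_nonneg _) hz 2
  rw [h0] at h1
  rw [mem_hex]
  refine ⟨?_, ?_, ?_⟩
  · apply abs_le_of_sq_le_sq _ (by norm_num)
    nlinarith [sq_nonneg (z - c).im]
  · apply abs_le_of_sq_le_sq _ (by norm_num)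
    nlinarith [sq_nonneg (√3 / 2 * (z - c).re - (z - c).im / 2), s3]
  · apply abs_le_of_sq_le_sq _ (by norm_num)
    nlinarith [sq_nonneg (√3 / 2 * (z - c).re + (z - c).im / 2), s3]

theorem mem_ball_of {c : ℂ} {x y : ℝ} (h : x ^ 2 + y ^ 2 ≤ 1 / 4) :
    (⟨c.re + x, c.im + y⟩ : ℂ) ∈ Metric.closedBall c (1 / 2) := by
  rw [Metric.mem_closedBall, dist_eq_norm]
  apply le_of_sq_le_sq _ (by norm_num)
  rw [sq_norm]
  simp only [Complex.sub_re, Complex.sub_im, add_sub_cancel_left]
  linarith

theorem mem_hex0 (x y : ℝ) : (⟨x, y⟩ : ℂ) ∈ Hex 0 ↔ |x| ≤ 1 / 2 ∧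
    |x / 2 + √3 / 2 * y| ≤ 1 / 2 ∧ |x / 2 - √3 / 2 * y| ≤ 1 / 2 := by
  rw [mem_hex]; simp only [sub_zero]

theorem mem_hex1 (x y : ℝ) : (⟨x, y⟩ : ℂ) ∈ Hex 1 ↔ |x - 1| ≤ 1 / 2 ∧
    |(x - 1) / 2 + √3 / 2 * y| ≤ 1 / 2 ∧ |(x - 1) / 2 - √3 / 2 * y| ≤ 1 / 2 := by
  rw [mem_hex]; simp only [Complex.sub_re, Complex.sub_im, Complex.one_re, Complex.one_im, sub_zero]

theorem ball_core {c : ℂ} (h : Metric.closedBall c (1 / 2) ⊆ Hex 0 ∪ Hex 1) : c = 0 ∨ c = 1 := by
  have hs := s3
  have hs0 := s3pos
  have hs1 : √3 < 1.7321 := by nlinarith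
  have hs2 : 1.732 < √3 := by nlinarith
  set a := c.re with ha
  set b := c.im with hb
  have p1 := h (mem_ball_of (c := c) (x := 1 / 4) (y := √3 / 4) (by nlinarith))
  have p2 := h (mem_ball_of (c := c) (x := -1 / 4) (y := √3 / 4) (by nlinarith))
  have p4 := h (mem_ball_of (c := c) (x := -1 / 4) (y := -√3 / 4) (by nlinarith))
  have p5 := h (mem_ball_of (c := c) (x := 1 / 4) (y := -√3 / 4) (by nlinarith))
  rw [Set.mem_union, mem_hex0, mem_hex1, ← ha, ← hb] at p1 p2 p4 p5
  simp only [abs_le] at p1 p2 p4 p5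
  have e : √3 / 2 * (√3 / 4) = 3 / 8 := by linear_combination (1 / 8) * hs
  have e1 : √3 / 2 * (b + √3 / 4) = √3 / 2 * b + 3 / 8 := by linear_combination e
  have e2 : √3 / 2 * (b + -√3 / 4) = √3 / 2 * b - 3 / 8 := by linear_combination -e
  rw [e1] at p1 p2
  rw [e2] at p4 p5
  set B := √3 / 2 * b with hB
  -- the rhombus
  have q2 : 2 * B ≤ a := by
    rcases p2 with p | p
    · linarith [p.2.2.1]
    · linarith [p.2.2.1]
  have q4 : -(2 * B) ≤ a := by
    rcases p4 with p | p
    · linarith [p.2.1.1]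
    · linarith [p.2.1.1]
  have q1 : 2 * B ≤ 1 - a := by
    rcases p1 with p | p
    · linarith [p.2.1.2]
    · linarith [p.2.1.2]
  have q5 : -(2 * B) ≤ 1 - a := by
    rcases p5 with p | p
    · linarith [p.2.2.2]
    · linarith [p.2.2.2]
  have bB : b = 2 / 3 * √3 * B := by rw [hB]; linear_combination (-b / 3) * hs
  have fin : ∀ r : ℝ, a = r → B = 0 → c = (r : ℂ) := by
    intro r h1 h2
    apply Complex.ext
    · rw [← ha, h1]; simp
    · rw [← hb, bB, h2]; simp
  rcases lt_or_ge a (1 / 4) with h1 | h1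
  · left
    have r1 : 2 * B ≤ -a := by
      rcases p1 with p | p
      · linarith [p.2.1.2]
      · linarith [p.1.1]
    have r5 : -(2 * B) ≤ -a := by
      rcases p5 with p | p
      · linarith [p.2.2.2]
      · linarith [p.1.1]
    have := fin 0 (by linarith) (by linarith)
    simpa using this
  · rcases lt_or_ge (3 / 4) a with h2 | h2
    · right
      have r2 : 2 * B ≤ a - 1 := by
        rcases p2 with p | p
        · linarith [p.1.2]
        · linarith [p.2.2.1]
      have r4 : -(2 * B) ≤ a - 1 := by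
        rcases p4 with p | p
        · linarith [p.1.2]
        · linarith [p.2.1.1]
      have := fin 1 (by linarith) (by linarith)
      simpa using this
    · exfalso
      -- the notch
      have hB1 : |B| ≤ 1 / 4 := by
        rw [abs_le]; constructor <;> linarith
      have hb3 : |b| ≤ 0.29 := by
        rw [bB, abs_mul, abs_of_pos (by positivity : (0 : ℝ) < 2 / 3 * √3)]
        nlinarith [abs_nonneg B]
      have key : ∀ d : ℝ, (d = 1 ∨ d = -1) → 0 ≤ d * b → False := by
        intro d hd hdb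
        have hd2 : d * d = 1 := by rcases hd with rfl | rfl <;> norm_num
        have h3 : d * b ≤ 0.29 := by
          calc d * b ≤ |d * b| := le_abs_self _
            _ = |b| := by
              rw [abs_mul]
              rcases hd with rfl | rfl <;> simp
            _ ≤ 0.29 := hb3
        have h4 := h (mem_ball_of (c := c) (x := 1 / 2 - a) (y := d * 0.3 - b) (by
          have : (d * 0.3 - b) ^ 2 = (0.3 - d * b) ^ 2 := by
            linear_combination (0.09 - b ^ 2) * hd2
          rw [this]
          have t1 : (1 / 2 - a) ^ 2 ≤ (1 / 4) ^ 2 := by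
            apply sq_le_sq' <;> linarith
          have t2 : (0.3 - d * b) ^ 2 ≤ 0.3 ^ 2 := by
            apply sq_le_sq' <;> linarith
          linarith))
        rw [← ha, ← hb, add_sub_cancel, add_sub_cancel] at h4
        rw [Set.mem_union, mem_hex0, mem_hex1] at h4
        simp only [abs_le] at h4
        rcases hd with rfl | rfl
        · rcases h4 with p | p
          · linarith [p.2.1.2]
          · linarith [p.2.2.1]
        · rcases h4 with p | p
          · linarith [p.2.2.2]
          · linarith [p.2.1.1]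
      rcases le_total 0 b with h3 | h3
      · exact key 1 (Or.inl rfl) (by linarith)
      · exact key (-1) (Or.inr rfl) (by linarith)

theorem im_hex {c z : ℂ} (h : z ∈ Hex c) : |z.im - c.im| ≤ 0.6 := by
  obtain ⟨h0, h1, h2⟩ := h
  simp only [Complex.sub_re, Complex.sub_im] at h0 h1 h2
  have hs := s3
  have hs0 := s3pos
  have hs2 : 1.732 < √3 := by nlinarith
  rw [abs_le] at h0 h1 h2
  set y := z.im - c.im
  have h3 : √3 * y ≤ 1 := by linarith
  have h4 : -(√3 * y) ≤ 1 := by linarith
  rw [abs_le]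
  constructor
  · by_contra hc
    push Not at hc
    nlinarith
  · by_contra hc
    push Not at hc
    nlinarith

theorem t_ball : S_ball := by
  refine ⟨ball_sub_hex, ?_⟩
  intro c h
  have hs := s3
  have hs0 := s3pos
  have hs1 : √3 < 1.7321 := by nlinarith
  have hs2 : 1.732 < √3 := by nlinarith
  have hc : c ∈ T := h (Metric.mem_closedBall_self (by norm_num))
  have low : ∀ z : ℂ, z ∈ Hex 0 ∪ Hex 1 → |z.im| ≤ 0.6 := by
    rintro z (hz | hz)
    · simpa using im_hex hz
    · simpa using im_hex hz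
  have high : ∀ z : ℂ, z ∈ Hex (pos (0, 4)) ∪ Hex (pos (1, 4)) → |z.im - 2 * √3| ≤ 0.6 := by
    rintro z (hz | hz)
    · have := im_hex hz
      rw [pos_im] at this
      push_cast at this
      rwa [show (4 : ℝ) * (√3 / 2) = 2 * √3 by ring] at this
    · have := im_hex hz
      rw [pos_im] at this
      push_cast at this
      rwa [show (4 : ℝ) * (√3 / 2) = 2 * √3 by ring] at this
  have split : ∀ z ∈ T, z ∈ Hex 0 ∪ Hex 1 ∨ z ∈ Hex (pos (0, 4)) ∪ Hex (pos (1, 4)) := by
    rintro z ⟨s, hs, hz⟩
    rcases mem_S0 hs with rfl | rfl | rfl | rfl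
    · left; left; rwa [pos_zero] at hz
    · left; right; rwa [pos_one] at hz
    · right; left; exact hz
    · right; right; exact hz
  have imb : ∀ z ∈ Metric.closedBall c (1 / 2), |z.im - c.im| ≤ 1 / 2 := by
    intro z hz
    rw [Metric.mem_closedBall, dist_eq_norm] at hz
    have := Complex.abs_im_le_norm (z - c)
    rw [Complex.sub_im] at this
    linarith
  rcases split c hc with h1 | h1
  · have h2 : Metric.closedBall c (1 / 2) ⊆ Hex 0 ∪ Hex 1 := by
      intro z hz
      rcases split z (h hz) with h3 | h3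
      · exact h3
      · exfalso
        have h4 := high z h3
        have h5 := low c h1
        have h6 := imb z hz
        rw [abs_le] at h4 h5 h6
        linarith
    rcases ball_core h2 with rfl | rfl
    · exact ⟨(0, 0), by decide, by simp⟩
    · exact ⟨(1, 0), by decide, by simp⟩
  · have h2 : Metric.closedBall (c - pos (0, 4)) (1 / 2) ⊆ Hex 0 ∪ Hex 1 := by
      intro z hz
      have hz' : z + pos (0, 4) ∈ Metric.closedBall c (1 / 2) := by
        rw [Metric.mem_closedBall] at hz ⊢
        rw [dist_eq_norm] at hz ⊢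
        rwa [show z + pos (0, 4) - c = z - (c - pos (0, 4)) by ring]
      rcases split _ (h hz') with h3 | h3
      · exfalso
        have h4 := low _ h3
        have h5 := high c h1
        have h6 := imb _ hz'
        rw [abs_le] at h4 h5 h6
        linarith
      · rcases h3 with h3 | h3
        · left
          rw [mem_hex_sub] at h3
          simpa using h3
        · right
          rw [mem_hex_sub] at h3 ⊢
          rw [show z + pos (0, 4) - pos (1, 4) = z - 1 by
            rw [show ((1, 4) : ℤ × ℤ) = (1, 0) + (0, 4) from rfl, pos_add, pos_one]; ring] at h3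
          exact h3
    rcases ball_core h2 with h3 | h3
    · exact ⟨(0, 4), by decide, sub_eq_zero.1 h3⟩
    · refine ⟨(1, 4), by decide, ?_⟩
      rw [show ((1, 4) : ℤ × ℤ) = (1, 0) + (0, 4) from rfl, pos_add, pos_one, ← h3]; ring

end Pool.Agent.Q139.ID
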