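import Pool.Agent.Q139.ID.Bas

set_option autoImplicit false

namespace Pool.Agent.Q139.ID

theorem sym_core : ∀ x0 ∈ S0, ∀ x1 ∈ S0, ∀ x2 ∈ S0,
    (x0 - x1).1 ^ 2 + (x0 - x1).1 * (x0 - x1).2 + (x0 - x1).2 ^ 2 = 1 →
    (x0 - x2).1 ^ 2 + (x0 - x2).1 * (x0 - x2).2 + (x0 - x2).2 ^ 2 = 16 →
    (x1 - x2).1 ^ 2 + (x1 - x2).1 * (x1 - x2).2 + (x1 - x2).2 ^ 2 = 13 →
    (x0 = (0, 0) ∧ x1 = (1, 0) ∧ x2 = (0, 4)) ∨ (x0 = (1, 4) ∧ x1 = (0, 4) ∧ x2 = (1, 0)) := by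
  decide

theorem decomp (z : ℂ) : ∃ x y : ℝ, z = x * (1 : ℂ) + y * pos (0, 4) := by
  have hs := s3pos
  refine ⟨z.re - z.im / √3, z.im / (2 * √3), ?_⟩
  apply Complex.ext
  · simp only [Complex.add_re, Complex.mul_re, Complex.ofReal_re, Complex.ofReal_im, pos_re,
      pos_im, Complex.one_re, Complex.one_im]
    push_cast
    field_simp
    ring
  · simp only [Complex.add_im, Complex.mul_im, Complex.ofReal_re, Complex.ofReal_im, pos_re,
      pos_im, Complex.one_re, Complex.one_im]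
    push_cast
    field_simp
    ring

theorem t_sym (h : S_ball) : S_sym := by
  intro g hg
  have key : ∀ s ∈ S0, ∃ x ∈ S0, g (pos s) = pos x := by
    intro s hs
    obtain ⟨x, hx, hx'⟩ := h.2 (g (pos s)) (by
      rw [← hg, ← g.image_closedBall]
      apply Set.image_mono
      exact (h.1 (pos s)).trans fun z hz => ⟨s, hs, hz⟩)
    exact ⟨x, hx, hx'⟩
  have hd : ∀ s t x y : ℤ × ℤ, g (pos s) = pos x → g (pos t) = pos y →
      (x - y).1 ^ 2 + (x - y).1 * (x - y).2 + (x - y).2 ^ 2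
        = (s - t).1 ^ 2 + (s - t).1 * (s - t).2 + (s - t).2 ^ 2 := by
    intro s t x y h1 h2
    have h3 := g.dist_eq (pos s) (pos t)
    rw [h1, h2, dist_eq_norm, dist_eq_norm, ← pos_sub, ← pos_sub] at h3
    have h4 := sq_norm_pos (x - y)
    rw [h3, sq_norm_pos] at h4
    exact_mod_cast h4.symm
  obtain ⟨x0, m0, e0⟩ := key (0, 0) (by decide)
  obtain ⟨x1, m1, e1⟩ := key (1, 0) (by decide)
  obtain ⟨x2, m2, e2⟩ := key (0, 4) (by decide)
  have aff : ∀ x y : ℝ, g (x * (1 : ℂ) + y * pos (0, 4))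
      = pos x0 + x * (pos x1 - pos x0) + y * (pos x2 - pos x0) := by
    intro x y
    rw [isometry_affine, e2, ← pos_one, e1, ← pos_zero, e0]
  rcases sym_core x0 m0 x1 m1 x2 m2 (by rw [hd _ _ _ _ e0 e1]; norm_num)
    (by rw [hd _ _ _ _ e0 e2]; norm_num) (by rw [hd _ _ _ _ e1 e2]; norm_num) with
    ⟨rfl, rfl, rfl⟩ | ⟨rfl, rfl, rfl⟩
  · left
    intro z
    obtain ⟨x, y, rfl⟩ := decomp z
    rw [aff, pos_zero, pos_one]; ring
  · right
    intro z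
    obtain ⟨x, y, rfl⟩ := decomp z
    rw [aff, pos_one, show ((1, 4) : ℤ × ℤ) = (1, 0) + (0, 4) from rfl, pos_add, pos_one]; ring

end Pool.Agent.Q139.ID
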