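import Pool.Agent.Q139.ID.Bas

set_option autoImplicit false

namespace Pool.Agent.Q139.ID

theorem sg_image_hex (s : ℤ × ℤ) :
    (fun z => pos (1, 4) - z) '' Hex (pos s) = Hex (pos (1 - s.1, 4 - s.2)) := by
  have e : pos (1 - s.1, 4 - s.2) = pos (1, 4) - pos s := by rw [← pos_sub]; rfl
  ext z
  constructor
  · rintro ⟨w, hw, rfl⟩
    rw [mem_hex_sub] at hw ⊢
    have := neg_mem_hex hw
    rw [e]
    convert this using 1
    ring
  · intro hz
    rw [mem_hex_sub, e] at hz
    refine ⟨pos (1, 4) - z, ?_, by simp⟩
    rw [mem_hex_sub]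
    have := neg_mem_hex hz
    convert this using 1
    ring

theorem t_pack (h1 : S_ball) (h2 : S_sym) : S_pack := by
  intro F hF g h hg hh s hs t ht hd
  have hball : ∀ (k : ℂ ≃ᵢ ℂ) (x : ℤ × ℤ), x ∈ S0 →
      Metric.ball (k (pos x)) (1 / 2) ⊆ interior (k '' T) := by
    intro k x hx
    apply interior_maximal _ Metric.isOpen_ball
    refine Metric.ball_subset_closedBall.trans ?_
    rw [← k.image_closedBall]
    apply Set.image_mono
    exact (h1.1 (pos x)).trans fun z hz => ⟨x, hx, hz⟩
  have hT : g '' T = h '' T := by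
    by_contra hne
    have hdis := hF.disjoint _ hg _ hh hne
    have m1 : midpoint ℝ (g (pos s)) (h (pos t)) ∈ Metric.ball (g (pos s)) (1 / 2) := by
      rw [Metric.mem_ball, dist_midpoint_left]
      norm_num
      linarith
    have m2 : midpoint ℝ (g (pos s)) (h (pos t)) ∈ Metric.ball (h (pos t)) (1 / 2) := by
      rw [Metric.mem_ball, dist_midpoint_right]
      norm_num
      linarith
    exact Set.disjoint_left.1 hdis (hball g s hs m1) (hball h t ht m2)
  refine ⟨hT, ?_⟩
  have hk : (g.trans h.symm) '' T = T := by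
    have : (g.trans h.symm) '' T = h.symm '' (g '' T) := by rw [Set.image_image]; rfl
    rw [this, hT, Set.image_image]
    simp
  rcases h2 _ hk with h3 | h3
  · have h4 : ∀ z, g z = h z := by
      intro z
      have := h3 z
      change h.symm (g z) = z at this
      rwa [IsometryEquiv.symm_apply_eq] at this
    have h5 : s = t := by
      apply dist_lt_one
      rw [h4, h.dist_eq] at hd
      exact hd
    subst h5
    refine ⟨h4 _, ?_⟩
    exact Set.image_congr fun z _ => h4 z
  · have h4 : ∀ z, g z = h (pos (1, 4) - z) := by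
      intro z
      have := h3 z
      change h.symm (g z) = _ at this
      rwa [IsometryEquiv.symm_apply_eq] at this
    have e : pos (1 - s.1, 4 - s.2) = pos (1, 4) - pos s := by rw [← pos_sub]; rfl
    have h5 : ((1 - s.1, 4 - s.2) : ℤ × ℤ) = t := by
      apply dist_lt_one
      rw [h4, h.dist_eq, ← e] at hd
      exact hd
    refine ⟨by rw [h4, ← e, h5], ?_⟩
    rw [← h5, ← sg_image_hex, Set.image_image]
    exact Set.image_congr fun z _ => h4 z

end Pool.Agent.Q139.ID
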