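import Pool.Agent.Q139.ID.Bas

set_option autoImplicit false

namespace Pool.Agent.Q139.ID

/-- The core inequality, in real coordinates (`b = √3 β`). -/
theorem geo_core {a b e : ℝ} (he : 0 ≤ e) (he1 : e ≤ 1 / 10)
    (h1 : 1 ≤ (a + 1 / 2) ^ 2 + 3 * b ^ 2) (h2 : 1 ≤ (a - 1 / 2) ^ 2 + 3 * b ^ 2)
    (h3 : a ^ 2 + 3 * (b - (1 + 2 * e) / 6) ^ 2 ≤ 1 / 3) :
    a ^ 2 + 3 * (b - 1 / 2) ^ 2 < 1 / 4 ∧ (e = 0 → a = 0 ∧ b = 1 / 2) := by
  have hab : |a| ≤ a ^ 2 + 3 * b ^ 2 - 3 / 4 := by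
    rw [abs_le]; constructor <;> nlinarith
  have hb1 : (b - (1 + 2 * e) / 6) ^ 2 ≤ (1 / 3) ^ 2 := by nlinarith [sq_nonneg a]
  have hb2 : b - (1 + 2 * e) / 6 ≤ 1 / 3 := (abs_le.1 (abs_le_of_sq_le_sq hb1 (by norm_num))).2
  have hb3 : 1 / 2 + e / 3 + e ^ 2 / 3 + |a| ≤ b * (1 + 2 * e) := by nlinarith
  have ha1 : |a| ≤ e + e ^ 2 / 3 := by
    have : b * (1 + 2 * e) ≤ (1 / 2 + e / 3) * (1 + 2 * e) := by
      apply mul_le_mul_of_nonneg_right _ (by linarith)
      linarith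
    nlinarith
  have ha0 := abs_nonneg a
  have hb4 : 1 / 2 - 2 * e / 3 ≤ b := by
    by_contra hc
    push Not at hc
    have : b * (1 + 2 * e) ≤ (1 / 2 - 2 * e / 3) * (1 + 2 * e) := by
      apply mul_le_mul_of_nonneg_right hc.le (by linarith)
    nlinarith
  constructor
  · have h5 : a ^ 2 ≤ (1.04 * e) ^ 2 := by
      rw [← sq_abs a]
      apply pow_le_pow_left₀ ha0
      nlinarith
    have h6 : (b - 1 / 2) ^ 2 ≤ (2 * e / 3) ^ 2 := by
      apply sq_le_sq'
      · linarith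
      · linarith
    nlinarith
  · intro h0
    subst h0
    have : a = 0 := by
      rw [← abs_nonpos_iff]; linarith
    exact ⟨this, by linarith⟩

theorem s3_sq : (√3 : ℝ) ^ 2 = 3 := by rw [sq]; exact s3

theorem t_geo : S_geo := by
  intro d hd
  have hd2 : d * d = 1 := by rcases hd with rfl | rfl <;> norm_num
  have hs := s3pos
  refine ⟨?_, ?_⟩
  · intro e he he1 c h1 h2 h3
    -- rescaled coordinates
    set a : ℝ := c.re - 1 / 2 with ha
    set b : ℝ := d * c.im / √3 with hb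
    have him : c.im = d * (√3 * b) := by
      rw [hb]; field_simp; linear_combination (-c.im) * hd2
    have hc2 : c.im ^ 2 = 3 * b ^ 2 := by
      rw [him]; linear_combination (√3 ^ 2 * b ^ 2) * hd2 + b ^ 2 * s3
    have e1 : 1 ≤ (a + 1 / 2) ^ 2 + 3 * b ^ 2 := by
      have h4 : 1 ≤ ‖c‖ ^ 2 := by nlinarith [norm_nonneg c]
      rw [sq_norm, hc2] at h4
      rw [ha]; ring_nf at h4 ⊢; linarith
    have e2 : 1 ≤ (a - 1 / 2) ^ 2 + 3 * b ^ 2 := by
      have h4 : 1 ≤ ‖c - 1‖ ^ 2 := by nlinarith [norm_nonneg (c - 1)]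
      rw [sq_norm] at h4
      simp only [Complex.sub_re, Complex.sub_im, Complex.one_re, Complex.one_im, sub_zero] at h4
      rw [hc2] at h4
      rw [ha]; ring_nf at h4 ⊢; linarith
    have e3 : a ^ 2 + 3 * (b - (1 + 2 * e) / 6) ^ 2 ≤ 1 / 3 := by
      have h4 : ‖c - ⟨1 / 2, d * (√3 / 6) * (1 + 2 * e)⟩‖ ^ 2 ≤ (1 / √3) ^ 2 :=
        pow_le_pow_left₀ (norm_nonneg _) h3 2
      rw [sq_norm, div_pow, one_pow, s3_sq] at h4
      simp only [Complex.sub_re, Complex.sub_im] at h4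
      have h5 : (c.im - d * (√3 / 6) * (1 + 2 * e)) ^ 2 = 3 * (b - (1 + 2 * e) / 6) ^ 2 := by
        rw [him]
        linear_combination (√3 ^ 2 * (b - (1 + 2 * e) / 6) ^ 2) * hd2
          + (b - (1 + 2 * e) / 6) ^ 2 * s3
      rw [h5] at h4
      exact h4
    obtain ⟨r1, r2⟩ := geo_core he he1 e1 e2 e3
    have h6 : (c.im - d * (√3 / 2)) ^ 2 = 3 * (b - 1 / 2) ^ 2 := by
      rw [him]
      linear_combination (√3 ^ 2 * (b - 1 / 2) ^ 2) * hd2 + (b - 1 / 2) ^ 2 * s3
    constructor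
    · have h7 : ‖c - ⟨1 / 2, d * (√3 / 2)⟩‖ ^ 2 < (1 / 2) ^ 2 := by
        rw [sq_norm]
        simp only [Complex.sub_re, Complex.sub_im]
        rw [h6, ← ha]
        linarith
      exact lt_of_pow_lt_pow_left₀ 2 (by norm_num) h7
    · intro h0
      obtain ⟨r3, r4⟩ := r2 h0
      apply Complex.ext
      · change c.re = 1 / 2
        linarith
      · change c.im = d * (√3 / 2)
        rw [him, r4]; ring
  · intro e he
    rw [mem_hex, mem_hex]
    simp only [sub_zero, Complex.sub_re, Complex.sub_im, Complex.one_re, Complex.one_im]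
    constructor
    · rintro ⟨-, h1, h2⟩
      rcases hd with rfl | rfl
      · have h3 := (abs_le.1 h1).2
        have : √3 / 2 * (1 * (√3 / 6) * (1 + 2 * e)) = (1 + 2 * e) / 4 := by
          linear_combination ((1 + 2 * e) / 12) * s3
        rw [this] at h3
        linarith
      · have h3 := (abs_le.1 h2).2
        have : √3 / 2 * (-1 * (√3 / 6) * (1 + 2 * e)) = -((1 + 2 * e) / 4) := by
          linear_combination (-(1 + 2 * e) / 12) * s3
        rw [this] at h3
        linarith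
    · rintro ⟨-, h1, h2⟩
      rcases hd with rfl | rfl
      · have h3 := (abs_le.1 h2).1
        have : √3 / 2 * (1 * (√3 / 6) * (1 + 2 * e)) = (1 + 2 * e) / 4 := by
          linear_combination ((1 + 2 * e) / 12) * s3
        rw [this] at h3
        linarith
      · have h3 := (abs_le.1 h1).1
        have : √3 / 2 * (-1 * (√3 / 6) * (1 + 2 * e)) = -((1 + 2 * e) / 4) := by
          linear_combination (-(1 + 2 * e) / 12) * s3
        rw [this] at h3
        linarith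

end Pool.Agent.Q139.ID
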