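import Pool.Agent.Q139.ID.Bas

set_option autoImplicit false

namespace Pool.Agent.Q139.ID

theorem hex_core {x b : ℝ} (h0 : |x| ≤ 1 / 2) (h1 : |x / 2 + b| ≤ 1 / 2)
    (h2 : |x / 2 - b| ≤ 1 / 2) : x ^ 2 + 4 / 3 * b ^ 2 ≤ 1 / 3 ∧
      (x ^ 2 + 4 / 3 * b ^ 2 = 1 / 3 → (x = 0 ∨ x = 1 / 2 ∨ x = -(1 / 2)) ∧
        (b = (1 - |x|) / 2 ∨ b = -((1 - |x|) / 2))) := by
  have hx := abs_nonneg x
  have hb : |b| ≤ (1 - |x|) / 2 := by
    rw [abs_le] at h1 h2 ⊢
    rcases abs_cases x with ⟨h3, h4⟩ | ⟨h3, h4⟩ <;> rw [h3] <;> constructor <;> linarith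
  have hb2 : b ^ 2 ≤ ((1 - |x|) / 2) ^ 2 := by
    rw [← sq_abs b]
    exact pow_le_pow_left₀ (abs_nonneg b) hb 2
  have hx2 : x ^ 2 = |x| ^ 2 := (sq_abs x).symm
  constructor
  · rw [hx2]; nlinarith
  · intro h
    have h3 : b ^ 2 = ((1 - |x|) / 2) ^ 2 := by
      apply le_antisymm hb2
      rw [hx2] at h
      nlinarith
    have h4 : |x| * (1 - 2 * |x|) = 0 := by
      rw [h3, hx2] at h
      linarith
    refine ⟨?_, sq_eq_sq_iff_eq_or_eq_neg.1 h3⟩
    rcases mul_eq_zero.1 h4 with h5 | h5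
    · left; exact abs_eq_zero.1 h5
    · right
      have : |x| = 1 / 2 := by linarith
      exact eq_or_eq_neg_of_abs_eq this

theorem im_eq {y b : ℝ} (h : b = √3 / 2 * y) : y ^ 2 = 4 / 3 * b ^ 2 ∧ y = 2 * √3 / 3 * b := by
  constructor
  · rw [h]; linear_combination (-(y ^ 2) / 3) * s3
  · rw [h]; linear_combination (-y / 3) * s3

theorem norm_le_of_hex {w : ℂ} (h : w ∈ Hex 0) : ‖w‖ ^ 2 ≤ 1 / 3 := by
  rw [mem_hex] at h
  simp only [sub_zero] at h
  have h1 := (hex_core h.1 h.2.1 h.2.2).1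
  rw [sq_norm, (im_eq (y := w.im) rfl).1]
  exact h1

theorem dist_le_of_hex {c z : ℂ} (h : z ∈ Hex c) : dist z c ≤ 1 / √3 := by
  rw [mem_hex_sub] at h
  have h1 := norm_le_of_hex h
  rw [dist_eq_norm]
  have h2 : (1 / √3 : ℝ) ^ 2 = 1 / 3 := by
    rw [div_pow, one_pow, sq, s3]
  have := s3pos
  apply le_of_sq_le_sq _ (by positivity)
  rw [h2]; exact h1

/-- the vertex with argument `30°` -/
noncomputable def vx : ℂ := ⟨1 / 2, √3 / 6⟩

theorem vx_pow : ze * vx = ⟨0, √3 / 3⟩ ∧ ze ^ 2 * vx = ⟨-(1 / 2), √3 / 6⟩ ∧ ze ^ 3 * vx = -vx ∧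
    ze ^ 4 * vx = ⟨0, -(√3 / 3)⟩ ∧ ze ^ 5 * vx = ⟨1 / 2, -(√3 / 6)⟩ := by
  have h1 : ze * vx = ⟨0, √3 / 3⟩ := by
    apply Complex.ext
    · simp only [Complex.mul_re, ze_re, ze_im, vx]; linear_combination (-1 / 12) * s3
    · simp only [Complex.mul_im, ze_re, ze_im, vx]; ring
  have h2 : ze ^ 2 * vx = ⟨-(1 / 2), √3 / 6⟩ := by
    rw [sq, mul_assoc, h1]
    apply Complex.ext
    · simp only [Complex.mul_re, ze_re, ze_im]; linear_combination (-1 / 6) * s3
    · simp only [Complex.mul_im, ze_re, ze_im]; ring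
  have h3 : ze ^ 3 = -1 := by linear_combination (ze + 1) * ze_sq
  refine ⟨h1, h2, by rw [h3]; ring, ?_, ?_⟩
  · rw [show ze ^ 4 * vx = ze ^ 3 * (ze * vx) by ring, h3, h1]
    apply Complex.ext <;> simp
  · rw [show ze ^ 5 * vx = ze ^ 3 * (ze ^ 2 * vx) by ring, h3, h2]
    apply Complex.ext <;> simp

theorem vertex {w : ℂ} (h : w ∈ Hex 0) (hn : ‖w‖ = 1 / √3) : ∃ k : ℕ, w = ze ^ k * vx := by
  rw [mem_hex] at h
  simp only [sub_zero] at h
  have h2 : (1 / √3 : ℝ) ^ 2 = 1 / 3 := by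
    rw [div_pow, one_pow, sq, s3]
  have h3 : w.re ^ 2 + 4 / 3 * (√3 / 2 * w.im) ^ 2 = 1 / 3 := by
    rw [← (im_eq (y := w.im) rfl).1, ← sq_norm, hn, h2]
  obtain ⟨h4, h5⟩ := (hex_core h.1 h.2.1 h.2.2).2 h3
  have h6 := (im_eq (y := w.im) (b := √3 / 2 * w.im) rfl).2
  obtain ⟨v1, v2, v3, v4, v5⟩ := vx_pow
  rcases h4 with h4 | h4 | h4
  · rw [h4, abs_zero] at h5
    rcases h5 with h5 | h5
    · refine ⟨1, ?_⟩
      rw [pow_one, v1]
      apply Complex.ext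
      · exact h4
      · change w.im = √3 / 3
        rw [h6, h5]; ring
    · refine ⟨4, ?_⟩
      rw [v4]
      apply Complex.ext
      · exact h4
      · change w.im = -(√3 / 3)
        rw [h6, h5]; ring
  · rw [h4, abs_of_pos (by norm_num)] at h5
    rcases h5 with h5 | h5
    · refine ⟨0, ?_⟩
      rw [pow_zero, one_mul]
      apply Complex.ext
      · exact h4
      · change w.im = √3 / 6
        rw [h6, h5]; ring
    · refine ⟨5, ?_⟩
      rw [v5]
      apply Complex.ext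
      · exact h4
      · change w.im = -(√3 / 6)
        rw [h6, h5]; ring
  · rw [h4, abs_neg, abs_of_pos (by norm_num)] at h5
    rcases h5 with h5 | h5
    · refine ⟨2, ?_⟩
      rw [v2]
      apply Complex.ext
      · exact h4
      · change w.im = √3 / 6
        rw [h6, h5]; ring
    · refine ⟨3, ?_⟩
      rw [v3]
      apply Complex.ext
      · rw [h4]; simp [vx]
      · rw [h6, h5]; simp [vx]; ring

theorem vx_ne : vx ≠ 0 := by
  intro h
  have := congrArg Complex.re h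
  simp [vx] at this

theorem pow_of_mul {a : ℂ} {j k : ℕ} (h : a * (ze ^ k * vx) = ze ^ j * vx) :
    a = ze ^ (j + 5 * k) := by
  have h1 : a * ze ^ k = ze ^ j := by
    apply mul_right_cancel₀ vx_ne
    rw [mul_assoc]; exact h
  calc a = a * (ze ^ 6) ^ k := by rw [ze_pow_six, one_pow, mul_one]
    _ = (a * ze ^ k) * ze ^ (5 * k) := by rw [mul_assoc, ← pow_mul, ← pow_add]; congr 2; ring
    _ = ze ^ (j + 5 * k) := by rw [h1, pow_add]

open ComplexConjugate in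
theorem conj_vertex (k : ℕ) : ∃ l : ℕ, conj (ze ^ k * vx) = ze ^ l * vx := by
  have hze : conj ze = ze ^ 5 := by
    have h3 : ze ^ 3 = -1 := by linear_combination (ze + 1) * ze_sq
    have h5 : ze ^ 5 = 1 - ze := by
      calc ze ^ 5 = ze ^ 3 * (ze * ze) := by ring
        _ = 1 - ze := by rw [h3, ze_sq]; ring
    rw [h5]
    apply Complex.ext
    · simp; norm_num
    · simp
  have hvx : conj vx = ze ^ 5 * vx := by
    rw [vx_pow.2.2.2.2]
    apply Complex.ext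
    · simp [vx]
    · simp [vx]
  refine ⟨5 * k + 5, ?_⟩
  rw [map_mul, map_pow, hze, hvx, ← pow_mul, pow_add, mul_assoc]

theorem hex_of_pow {n : ℕ} {w : ℂ} : w ∈ Hex 0 ↔ ∃ u ∈ Hex 0, w = ze ^ n * u := by
  constructor
  · intro h
    refine ⟨ze ^ (5 * n) * w, ze_pow_mul_mem_hex _ h, ?_⟩
    rw [← mul_assoc, ← pow_add, show n + 5 * n = 6 * n by ring, pow_mul, ze_pow_six, one_pow,
      one_mul]
  · rintro ⟨u, hu, rfl⟩
    exact ze_pow_mul_mem_hex n hu

open ComplexConjugate in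
theorem t_vert : S_vert := by
  refine ⟨fun c z h => dist_le_of_hex h, ?_⟩
  intro g c z p hgc hp hpz hd
  obtain ⟨q, hq, rfl⟩ := hp
  rw [mem_hex_sub] at hq hpz
  obtain ⟨j, hj⟩ := vertex hpz (by rw [← dist_eq_norm]; exact hd)
  have hqn : ‖q - c‖ = 1 / √3 := by
    rw [← dist_eq_norm, ← g.dist_eq q c, hgc]; exact hd
  obtain ⟨k, hk⟩ := vertex hq hqn
  obtain ⟨a, b, -, h | h⟩ := isometry_form g
  · have hz : z = a * c + b := by rw [← hgc, h]
    have h1 : a * (ze ^ k * vx) = ze ^ j * vx := by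
      rw [← hk, ← hj, h, hz]; ring
    have ha := pow_of_mul h1
    ext w
    rw [mem_hex_sub z w, hex_of_pow (n := j + 5 * k)]
    constructor
    · rintro ⟨u, hu, rfl⟩
      rw [mem_hex_sub] at hu
      refine ⟨u - c, hu, ?_⟩
      rw [h, hz, ← ha]; ring
    · rintro ⟨u, hu, hw⟩
      refine ⟨u + c, by rw [mem_hex_sub]; simpa using hu, ?_⟩
      rw [h, ha, mul_add, ← hw, hz, ha]; ring
  · have hz : z = a * conj c + b := by rw [← hgc, h]
    obtain ⟨l, hl⟩ := conj_vertex k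
    have h1 : a * (ze ^ l * vx) = ze ^ j * vx := by
      rw [← hl, ← hk, ← hj, h, hz, map_sub]; ring
    have ha := pow_of_mul h1
    ext w
    rw [mem_hex_sub z w, hex_of_pow (n := j + 5 * l)]
    constructor
    · rintro ⟨u, hu, rfl⟩
      rw [mem_hex_sub, ← conj_mem_hex] at hu
      refine ⟨_, hu, ?_⟩
      rw [h, hz, ← ha, map_sub]; ring
    · rintro ⟨u, hu, hw⟩
      refine ⟨conj u + c, by rw [mem_hex_sub]; simpa [conj_mem_hex] using hu, ?_⟩
      rw [h, map_add, Complex.conj_conj, ha, mul_add, ← hw, hz, ha]; ring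

end Pool.Agent.Q139.ID
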