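import Pool.Agent.Q139.ID.Bas

set_option autoImplicit false

namespace Pool.Agent.Q139.ID

theorem unit_pow {d : ℤ × ℤ} (hd : d.1 ^ 2 + d.1 * d.2 + d.2 ^ 2 = 1) :
    ∃ n : ℕ, pos d = ze ^ n := by
  obtain ⟨a, b⟩ := d
  simp only at hd
  have h1 : a ≤ 1 := by nlinarith [sq_nonneg (a + 2 * b)]
  have h2 : -1 ≤ a := by nlinarith [sq_nonneg (a + 2 * b)]
  have h3 : b ≤ 1 := by nlinarith [sq_nonneg (2 * a + b)]
  have h4 : -1 ≤ b := by nlinarith [sq_nonneg (2 * a + b)]
  have z2 : ze ^ 2 = ze - 1 := by rw [sq]; exact ze_sq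
  have z3 : ze ^ 3 = -1 := by linear_combination (ze + 1) * ze_sq
  have z4 : ze ^ 4 = -ze := by rw [show ze ^ 4 = ze ^ 3 * ze by ring, z3]; ring
  have z5 : ze ^ 5 = 1 - ze := by
    rw [show ze ^ 5 = ze ^ 3 * ze ^ 2 by ring, z3, z2]; ring
  interval_cases a <;> interval_cases b <;> first | (exfalso; revert hd; norm_num; done) | skip
  · exact ⟨3, by rw [z3]; simp [pos]⟩
  · exact ⟨2, by rw [z2]; simp [pos]; ring⟩
  · exact ⟨4, by rw [z4]; simp [pos]⟩
  · exact ⟨1, by rw [pow_one]; simp [pos]⟩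
  · exact ⟨5, by rw [z5]; simp [pos]; ring⟩
  · exact ⟨0, by rw [pow_zero]; simp [pos]⟩

theorem norm_ze_pow (n : ℕ) : ‖ze ^ n‖ = 1 := by rw [norm_pow, norm_ze, one_pow]

/-- One common neighbour; `dl = 1` or `-1`, `Z` its position. -/
theorem corner_one (h1 : S_pack) (h2 : S_geo) (h3 : S_vert) {F : Set (Set ℂ)} (hF : IsTiling F)
    (hm : Monohedral F T) {x y w : ℤ × ℤ} (hx : Occ F x) (hy : Occ F y) (n : ℕ)
    (hu : pos y = pos x + ze ^ n) (dl : ℝ) (hdl : dl = 1 ∨ dl = -1)
    (hw : pos w = pos x + ze ^ n * ⟨1 / 2, dl * (√3 / 2)⟩) : Occ F w := by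
  obtain ⟨gx, gxT, sx, hsx, gxs, gxH⟩ := hx
  obtain ⟨gy, gyT, sy, hsy, gys, gyH⟩ := hy
  obtain ⟨geo1, geo2⟩ := h2 dl hdl
  set u : ℂ := ze ^ n with hu'
  have hun : ‖u‖ = 1 := norm_ze_pow n
  have hu0 : u ≠ 0 := by
    intro h0
    rw [h0, norm_zero] at hun
    norm_num at hun
  let q : ℝ → ℂ := fun e => ⟨1 / 2, dl * (√3 / 6) * (1 + 2 * e)⟩
  let P : ℝ → ℂ := fun e => pos x + u * q e
  -- scaling
  have resc : ∀ c d : ℂ, ‖c / u - d‖ = ‖c - u * d‖ := by
    intro c d
    have : c / u - d = (c - u * d) / u := by field_simp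
    rw [this, norm_div, hun, div_one]
  -- the points are outside the two hexagons
  have out : ∀ e : ℝ, 0 < e → P e ∉ Hex (pos x) ∧ P e ∉ Hex (pos y) := by
    intro e he
    obtain ⟨o1, o2⟩ := geo2 e he
    constructor
    · intro h
      apply o1
      rw [mem_hex_sub] at h
      have : P e - pos x = ze ^ n * q e := by simp only [P]; ring
      rw [this, ze_pow_mul_mem_hex_iff] at h
      exact h
    · intro h
      apply o2
      rw [mem_hex_sub] at h
      have : P e - pos y = ze ^ n * (q e - 1) := by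
        simp only [P]; rw [hu]; ring
      rw [this, ze_pow_mul_mem_hex_iff] at h
      rw [mem_hex_sub]
      exact h
  -- centres of hexagons containing these points
  have cen : ∀ (g : ℂ ≃ᵢ ℂ) (s : ℤ × ℤ), g '' T ∈ F → s ∈ S0 → ∀ e' : ℝ, 0 < e' →
      P e' ∈ g '' Hex (pos s) → ∀ e : ℝ, 0 ≤ e → e ≤ 1 / 10 → P e ∈ g '' Hex (pos s) →
        dist (g (pos s)) (pos w) < 1 / 2 ∧ (e = 0 → g (pos s) = pos w) := by
    intro g s hg hs e' he' hP' e he he1 hP
    have hdx : 1 ≤ dist (g (pos s)) (pos x) := by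
      by_contra hc
      push Not at hc
      rw [← gxs] at hc
      have h4 := (h1 F hF g gx hg gxT s hs sx hsx hc).2.2
      rw [gxH] at h4
      rw [h4] at hP'
      exact (out e' he').1 hP'
    have hdy : 1 ≤ dist (g (pos s)) (pos y) := by
      by_contra hc
      push Not at hc
      rw [← gys] at hc
      have h4 := (h1 F hF g gy hg gyT s hs sy hsy hc).2.2
      rw [gyH] at h4
      rw [h4] at hP'
      exact (out e' he').2 hP'
    have hdP : dist (P e) (g (pos s)) ≤ 1 / √3 := by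
      obtain ⟨z, hz, hz'⟩ := hP
      rw [← hz', g.dist_eq]
      exact h3.1 _ _ hz
    set c : ℂ := (g (pos s) - pos x) / u with hc
    have c1 : 1 ≤ ‖c‖ := by
      have := resc (g (pos s) - pos x) 0
      rw [sub_zero, mul_zero, sub_zero] at this
      rw [hc, this, ← dist_eq_norm]; exact hdx
    have c2 : 1 ≤ ‖c - 1‖ := by
      rw [hc, resc, mul_one, sub_sub, ← hu, ← dist_eq_norm]; exact hdy
    have c3 : ‖c - q e‖ ≤ 1 / √3 := by
      rw [hc, resc, sub_sub, ← dist_eq_norm, dist_comm]; exact hdP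
    obtain ⟨r1, r2⟩ := geo1 e he he1 c c1 c2 c3
    constructor
    · rw [hc, resc, sub_sub, ← hw, ← dist_eq_norm] at r1
      exact r1
    · intro h0
      have r3 := r2 h0
      rw [hc, div_eq_iff hu0] at r3
      rw [hw]
      linear_combination r3
  -- a hexagon for each small e
  have ex : ∀ e : ℝ, ∃ g : ℂ ≃ᵢ ℂ, g '' T ∈ F ∧ ∃ s ∈ S0, P e ∈ g '' Hex (pos s) := by
    intro e
    obtain ⟨t, ht, hPt⟩ : P e ∈ ⋃₀ F := by rw [hF.cover]; trivial
    obtain ⟨g, rfl⟩ := hm t ht
    exact ⟨g, ht, (image_T g _).1 hPt⟩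
  obtain ⟨g, hg, s, hs, hP⟩ := ex (1 / 10)
  have hc0 := (cen g s hg hs _ (by norm_num) hP _ (by norm_num) le_rfl hP).1
  have all : ∀ e : ℝ, 0 < e → e ≤ 1 / 10 → P e ∈ g '' Hex (pos s) := by
    intro e he he1
    obtain ⟨g', hg', s', hs', hP'⟩ := ex e
    have hc1 := (cen g' s' hg' hs' _ he hP' _ he.le he1 hP').1
    have hd : dist (g' (pos s')) (g (pos s)) < 1 := by
      calc dist (g' (pos s')) (g (pos s))
          ≤ dist (g' (pos s')) (pos w) + dist (g (pos s)) (pos w) := dist_triangle_right _ _ _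
        _ < 1 := by linarith
    rw [← (h1 F hF g' g hg' hg s' hs' s hs hd).2.2]
    exact hP'
  -- closedness
  have hcl : IsClosed (g '' Hex (pos s)) := g.toHomeomorph.isClosedMap _ (isClosed_hex _)
  have hP0 : P 0 ∈ g '' Hex (pos s) := by
    have hcont : Continuous P := by
      have : P = fun e => pos x + u * ((1 / 2 : ℂ)
          + ((dl * (√3 / 6) * (1 + 2 * e) : ℝ) : ℂ) * Complex.I) := by
        funext e
        simp only [P, q]
        congr 2
        apply Complex.ext <;> simp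
      rw [this]
      fun_prop
    have hlim : Filter.Tendsto (fun k : ℕ => P (1 / (10 * ((k : ℝ) + 1)))) Filter.atTop
        (nhds (P 0)) := by
      apply (hcont.tendsto 0).comp
      have h5 : Filter.Tendsto (fun k : ℕ => (1 / 10 : ℝ) * (1 / ((k : ℝ) + 1))) Filter.atTop
          (nhds ((1 / 10 : ℝ) * 0)) :=
        tendsto_one_div_add_atTop_nhds_zero_nat.const_mul _
      rw [mul_zero] at h5
      convert h5 using 1
      funext k
      have : ((k : ℝ) + 1) ≠ 0 := by positivity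
      field_simp
    apply hcl.mem_of_tendsto hlim
    filter_upwards with k
    apply all
    · positivity
    · have : (1 : ℝ) ≤ (k : ℝ) + 1 := by
        have : (0 : ℝ) ≤ k := by positivity
        linarith
      rw [div_le_div_iff₀ (by positivity) (by norm_num)]
      linarith
  have hgw := (cen g s hg hs _ (by norm_num) hP 0 le_rfl (by norm_num) hP0).2 rfl
  have hs0 := s3pos
  have hdiff : P 0 - pos w = ze ^ n * ⟨0, -(dl * (√3 / 3))⟩ := by
    rw [hw]
    simp only [P, q]
    have : (⟨1 / 2, dl * (√3 / 6) * (1 + 2 * 0)⟩ : ℂ) - ⟨1 / 2, dl * (√3 / 2)⟩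
        = ⟨0, -(dl * (√3 / 3))⟩ := by
      apply Complex.ext
      · simp
      · simp only [Complex.sub_im]; ring
    rw [← this]; ring
  have hn0 : ‖(⟨0, -(dl * (√3 / 3))⟩ : ℂ)‖ = 1 / √3 := by
    have hd2 : dl * dl = 1 := by rcases hdl with rfl | rfl <;> norm_num
    have : ‖(⟨0, -(dl * (√3 / 3))⟩ : ℂ)‖ ^ 2 = (1 / √3) ^ 2 := by
      rw [sq_norm, div_pow, one_pow, sq (√3), s3]
      simp only
      linear_combination (√3 * √3 / 9) * hd2 + (1 / 9) * s3
    exact (pow_left_inj₀ (norm_nonneg _) (by positivity) (by norm_num)).1 this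
  refine ⟨g, hg, s, hs, hgw, ?_⟩
  apply h3.2 g (pos s) (pos w) (P 0) hgw hP0
  · rw [mem_hex_sub, hdiff, ze_pow_mul_mem_hex_iff, mem_hex]
    have e1 : √3 / 2 * -(dl * (√3 / 3)) = -dl / 2 := by
      linear_combination (-dl / 6) * s3
    simp only [sub_zero, e1]
    rcases hdl with rfl | rfl <;> norm_num [abs_of_pos, abs_of_neg]
  · rw [dist_eq_norm, hdiff, norm_mul, norm_ze_pow, one_mul, hn0]

theorem t_corner (h1 : S_pack) (h2 : S_geo) (h3 : S_vert) : S_corner := by
  intro F hF hm x d hd hx hy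
  obtain ⟨n, hn⟩ := unit_pow hd
  have hu : pos (x + d) = pos x + ze ^ n := by rw [pos_add, hn]
  constructor
  · refine corner_one h1 h2 h3 hF hm hx hy n hu 1 (Or.inl rfl) ?_
    rw [pos_add, ← hn]
    congr 1
    apply Complex.ext
    · simp only [pos_re, pos_im, Complex.mul_re]
      push_cast
      linear_combination ((d.2 : ℝ) / 4) * s3
    · simp only [pos_re, pos_im, Complex.mul_im]
      push_cast
      ring
  · refine corner_one h1 h2 h3 hF hm hx hy n hu (-1) (Or.inr rfl) ?_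
    rw [pos_add, ← hn]
    congr 1
    apply Complex.ext
    · simp only [pos_re, pos_im, Complex.mul_re]
      push_cast
      linear_combination (-(d.2 : ℝ) / 4) * s3
    · simp only [pos_re, pos_im, Complex.mul_im]
      push_cast
      ring

end Pool.Agent.Q139.ID
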