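import Pool.Agent.Q139.ID.Bas

set_option autoImplicit false

namespace Pool.Agent.Q139.ID

theorem t_all (h : S_corner) : S_all := by
  intro F hF hm hT
  have hT' : (IsometryEquiv.refl ℂ) '' T ∈ F := by
    have : (IsometryEquiv.refl ℂ) '' T = T := by
      ext z
      constructor
      · rintro ⟨w, hw, rfl⟩
        exact hw
      · intro hz
        exact ⟨z, hz, rfl⟩
    rw [this]; exact hT
  have hid : ∀ t : Set ℂ, (IsometryEquiv.refl ℂ) '' t = t := by
    intro t
    ext z
    constructor
    · rintro ⟨w, hw, rfl⟩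
      exact hw
    · intro hz
      exact ⟨z, hz, rfl⟩
  have o0 : Occ F (0, 0) := ⟨IsometryEquiv.refl ℂ, hT', (0, 0), by decide, rfl, hid _⟩
  have o1 : Occ F (1, 0) := ⟨IsometryEquiv.refl ℂ, hT', (1, 0), by decide, rfl, hid _⟩
  -- the six rules
  have r : ∀ (d : ℤ × ℤ), d.1 ^ 2 + d.1 * d.2 + d.2 ^ 2 = 1 → ∀ a b : ℤ, Occ F (a, b) →
      Occ F (a + d.1, b + d.2) → Occ F (a - d.2, b + (d.1 + d.2)) ∧
        Occ F (a + (d.1 + d.2), b - d.1) := by
    intro d hd a b h1 h2
    have h3 := h F hF hm (a, b) d hd h1 h2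
    simpa [sub_eq_add_neg] using h3
  let Q : ℤ → ℤ → Prop := fun a b => Occ F (a, b) ∧ Occ F (a + 1, b)
  have up : ∀ a b, Q a b → Q a (b + 1) := by
    rintro a b ⟨h1, h2⟩
    have h3 := r (1, 0) (by norm_num) a b h1 (by simpa using h2)
    norm_num at h3
    have h4 := r (-1, 1) (by norm_num) (a + 1) b h2 (by convert h3.1 using 2 <;> ring)
    norm_num at h4
    refine ⟨h3.1, ?_⟩
    exact h4.2
  have down : ∀ a b, Q a b → Q a (b - 1) := by
    rintro a b ⟨h1, h2⟩
    have h3 := r (1, 0) (by norm_num) a b h1 (by simpa using h2)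
    norm_num at h3
    have h4 := r (1, -1) (by norm_num) a b h1 (by convert h3.2 using 2 <;> ring)
    norm_num at h4
    refine ⟨?_, h3.2⟩
    exact h4.2
  have right : ∀ a b, Q a b → Q (a + 1) b := by
    rintro a b ⟨h1, h2⟩
    obtain ⟨h3, h4⟩ := up a b ⟨h1, h2⟩
    have h5 := r (0, 1) (by norm_num) (a + 1) b h2 (by convert h4 using 2 <;> ring)
    norm_num at h5
    exact ⟨h2, h5.2⟩
  have left : ∀ a b, Q a b → Q (a - 1) b := by
    rintro a b ⟨h1, h2⟩
    obtain ⟨h3, h4⟩ := down a b ⟨h1, h2⟩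
    have h5 := r (0, -1) (by norm_num) a b h1 (by convert h3 using 2 <;> ring)
    norm_num at h5
    refine ⟨?_, by simpa using h1⟩
    convert h5.2 using 2 <;> ring
  have q0 : ∀ b, Q 0 b := by
    intro b
    induction b using Int.induction_on with
    | zero => exact ⟨o0, by simpa using o1⟩
    | succ n ih => exact up _ _ ih
    | pred n ih => exact down _ _ ih
  have q : ∀ b a, Q a b := by
    intro b a
    induction a using Int.induction_on with
    | zero => exact q0 b
    | succ n ih => exact right _ _ ih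
    | pred n ih => exact left _ _ ih
  intro x
  exact (q x.2 x.1).1

end Pool.Agent.Q139.ID
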