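import Pool.Agent.Q139.ID.Bas

set_option autoImplicit false

namespace Pool.Agent.Q139.ID

theorem unit_bd {a c : ℤ} (h : a ^ 2 + a * c + c ^ 2 = 1) :
    a ∈ Finset.Icc (-1 : ℤ) 1 ∧ c ∈ Finset.Icc (-1 : ℤ) 1 := by
  rw [Finset.mem_Icc, Finset.mem_Icc]
  refine ⟨⟨?_, ?_⟩, ⟨?_, ?_⟩⟩
  · nlinarith [sq_nonneg (a + 2 * c)]
  · nlinarith [sq_nonneg (a + 2 * c)]
  · nlinarith [sq_nonneg (2 * a + c)]
  · nlinarith [sq_nonneg (2 * a + c)]

theorem lin_fin : ∀ a ∈ Finset.Icc (-1 : ℤ) 1, ∀ b ∈ Finset.Icc (-1 : ℤ) 1,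
    ∀ c ∈ Finset.Icc (-1 : ℤ) 1, ∀ d ∈ Finset.Icc (-1 : ℤ) 1,
    a ^ 2 + a * c + c ^ 2 = 1 → b ^ 2 + b * d + d ^ 2 = 1 →
    (a - b) ^ 2 + (a - b) * (c - d) + (c - d) ^ 2 = 1 → (a, b, c, d) ∈ lin12 := by
  decide +kernel

theorem lin_core (a b c d : ℤ) (h1 : a ^ 2 + a * c + c ^ 2 = 1) (h2 : b ^ 2 + b * d + d ^ 2 = 1)
    (h3 : (a - b) ^ 2 + (a - b) * (c - d) + (c - d) ^ 2 = 1) : (a, b, c, d) ∈ lin12 :=
  lin_fin a (unit_bd h1).1 b (unit_bd h2).1 c (unit_bd h1).2 d (unit_bd h2).2 h1 h2 h3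

theorem t_align (h1 : S_pack) (h2 : S_all) (h3 : S_cover) (h4 : S_vert) : S_align := by
  intro F hF hm hT g hg
  have key : ∀ x, ∃ y, g (pos x) = pos y := by
    intro x
    obtain ⟨k, hk, s, hs, hks, -⟩ := h2 F hF hm hT x
    obtain ⟨y, hy⟩ := h3.1 (g (pos x))
    have hd := h4.1 _ _ hy
    have hlt : (1 / √3 : ℝ) < 1 := by
      rw [div_lt_one s3pos]
      nlinarith [s3, s3pos]
    obtain ⟨k', hk', s', hs', hks', -⟩ := h2 F hF hm hT y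
    have hgk : (k.trans g) '' T ∈ F := by
      have : (k.trans g) '' T = g '' (k '' T) := by rw [Set.image_image]; rfl
      rw [this, ← hg]
      exact ⟨_, hk, rfl⟩
    have e1 : (k.trans g) (pos s) = g (pos x) := by
      change g (k (pos s)) = _
      rw [hks]
    have := (h1 F hF (k.trans g) k' hgk hk' s hs s' hs' (by rw [e1, hks']; linarith)).2.1
    exact ⟨y, by rw [← e1, this, hks']⟩
  obtain ⟨w0, e0⟩ := key (0, 0)
  obtain ⟨w1, e1⟩ := key (1, 0)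
  obtain ⟨w2, e2⟩ := key (0, 1)
  have hd : ∀ s t x y : ℤ × ℤ, g (pos s) = pos x → g (pos t) = pos y →
      (x - y).1 ^ 2 + (x - y).1 * (x - y).2 + (x - y).2 ^ 2
        = (s - t).1 ^ 2 + (s - t).1 * (s - t).2 + (s - t).2 ^ 2 := by
    intro s t x y h1 h2
    have h3 := g.dist_eq (pos s) (pos t)
    rw [h1, h2, dist_eq_norm, dist_eq_norm, ← pos_sub, ← pos_sub] at h3
    have h4 := sq_norm_pos (x - y)
    rw [h3, sq_norm_pos] at h4
    exact_mod_cast h4.symm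
  have q1 := hd _ _ _ _ e1 e0
  have q2 := hd _ _ _ _ e2 e0
  have q3 := hd _ _ _ _ e1 e2
  obtain ⟨u, v⟩ := w0
  obtain ⟨a, c⟩ := w1
  obtain ⟨b, d⟩ := w2
  simp only [Prod.fst_sub, Prod.snd_sub] at q1 q2 q3
  norm_num at q1 q2 q3
  refine ⟨⟨a - u, b - u, c - v, d - v, u, v⟩, ?_, ?_⟩
  · apply lin_core
    · exact q1
    · exact q2
    · rw [show a - u - (b - u) = a - b by ring, show c - v - (d - v) = c - d by ring]
      exact q3
  · intro x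
    have h5 : pos x = ((x.1 : ℝ) : ℂ) * pos (1, 0) + ((x.2 : ℝ) : ℂ) * pos (0, 1) := by
      rw [pos_one, pos_ze, pos]
      push_cast
      ring
    rw [h5, isometry_affine, e1, e2, ← pos_zero, e0]
    simp only [pos, Aff.act]
    push_cast
    ring

end Pool.Agent.Q139.ID
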