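import Pool.Agent.Q139.ID.Bas

set_option autoImplicit false

/-! The assembly of the non-existence part. -/

namespace Pool.Agent.Q139.ID

/-! ### Transport of tilings by isometries -/

section transport
variable (e : ℂ ≃ᵢ ℂ) {F : Set (Set ℂ)}

theorem image_image_symm (t : Set ℂ) : e.symm '' (e '' t) = t := by
  rw [Set.image_image]; simp

theorem image_symm_image (t : Set ℂ) : e '' (e.symm '' t) = t := by
  rw [Set.image_image]; simp

theorem image_trans (f g : ℂ ≃ᵢ ℂ) (t : Set ℂ) : (f.trans g) '' t = g '' (f '' t) := by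
  rw [Set.image_image]; rfl

theorem tiling_image (h : IsTiling F) : IsTiling ((fun t => e '' t) '' F) where
  countable := h.countable.image _
  closed := by
    rintro _ ⟨t, ht, rfl⟩
    exact e.toHomeomorph.isClosedMap _ (h.closed t ht)
  cover := by
    rw [Set.eq_univ_iff_forall]
    intro z
    have h1 : e.symm z ∈ ⋃₀ F := by rw [h.cover]; trivial
    obtain ⟨t, ht, hz⟩ := h1
    exact ⟨e '' t, ⟨t, ht, rfl⟩, e.symm z, hz, by simp⟩
  disjoint := by
    rintro _ ⟨t, ht, rfl⟩ _ ⟨t', ht', rfl⟩ hne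
    have hne' : t ≠ t' := fun h' => hne (by rw [h'])
    have h1 := h.disjoint t ht t' ht' hne'
    have e1 : interior (e '' t) = e '' interior t := (e.toHomeomorph.image_interior t).symm
    have e2 : interior (e '' t') = e '' interior t' := (e.toHomeomorph.image_interior t').symm
    change Disjoint (interior (e '' t)) (interior (e '' t'))
    rw [e1, e2]
    exact (Set.disjoint_image_iff e.injective).2 h1

theorem monohedral_image {P : Set ℂ} (h : Monohedral F P) :
    Monohedral ((fun t => e '' t) '' F) P := by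
  rintro _ ⟨t, ht, rfl⟩
  obtain ⟨g, rfl⟩ := h t ht
  exact ⟨g.trans e, image_trans g e P⟩

theorem symmetry_image {g : ℂ ≃ᵢ ℂ} (h : IsSymmetry F g) :
    IsSymmetry ((fun t => e '' t) '' F) ((e.symm.trans g).trans e) := by
  have key : ∀ t : Set ℂ, ((e.symm.trans g).trans e) '' (e '' t) = e '' (g '' t) := by
    intro t
    rw [image_trans, image_trans, image_image_symm]
  rw [IsSymmetry, Set.image_image]
  simp only [key]
  conv_rhs => rw [← h]
  rw [Set.image_image]

theorem isohedral_image (h : Isohedral F) : Isohedral ((fun t => e '' t) '' F) := by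
  rintro _ ⟨t, ht, rfl⟩ _ ⟨t', ht', rfl⟩
  obtain ⟨g, hg, rfl⟩ := h t ht t' ht'
  refine ⟨_, symmetry_image e hg, ?_⟩
  change ((e.symm.trans g).trans e) '' (e '' t) = e '' (g '' t)
  rw [image_trans, image_trans, image_image_symm]

theorem image_comp {t : Set ℂ} {z : ℂ} (hz : z ∈ t) :
    e '' connectedComponentIn t z = connectedComponentIn (e '' t) (e z) :=
  e.toHomeomorph.image_connectedComponentIn hz

theorem componentTransitive_image (h : ComponentTransitive F) :
    ComponentTransitive ((fun t => e '' t) '' F) := by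
  rintro _ ⟨t, ht, rfl⟩ _ ⟨z, hz, rfl⟩ _ ⟨w, hw, rfl⟩
  obtain ⟨g, hg, hgt, hc⟩ := h t ht z hz w hw
  refine ⟨_, symmetry_image e hg, ?_, ?_⟩
  · change ((e.symm.trans g).trans e) '' (e '' t) = e '' t
    rw [image_trans, image_trans, image_image_symm, hgt]
  · change ((e.symm.trans g).trans e) '' connectedComponentIn (e '' t) (e z)
      = connectedComponentIn (e '' t) (e w)
    rw [← image_comp e hz, ← image_comp e hw, image_trans, image_trans, image_image_symm, hc]

end transport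

/-- The symmetries form a group. -/
theorem symmetry_trans {F : Set (Set ℂ)} {f g : ℂ ≃ᵢ ℂ} (hf : IsSymmetry F f)
    (hg : IsSymmetry F g) : IsSymmetry F (f.trans g) := by
  rw [IsSymmetry]
  simp only [image_trans]
  rw [← Set.image_image (fun t => g '' t) (fun t => f '' t), hf, hg]

theorem symmetry_symm {F : Set (Set ℂ)} {g : ℂ ≃ᵢ ℂ} (hg : IsSymmetry F g) :
    IsSymmetry F g.symm := by
  rw [IsSymmetry]
  conv_lhs => rw [← hg]
  rw [Set.image_image]
  simp only [image_image_symm, Set.image_id']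

theorem symmetry_mem {F : Set (Set ℂ)} {g : ℂ ≃ᵢ ℂ} (hg : IsSymmetry F g) {t : Set ℂ}
    (ht : t ∈ F) : g '' t ∈ F := by
  rw [← hg]
  exact ⟨t, ht, rfl⟩

theorem pos_act_mul (A B : Aff) (x : ℤ × ℤ) : (A.mul B).act x = A.act (B.act x) := by
  simp only [Aff.act, Aff.mul]
  ext <;> simp <;> ring

theorem act_one (x : ℤ × ℤ) : Aff.one.act x = x := by
  simp [Aff.act, Aff.one]

theorem aff_ext {A B : Aff} (h : ∀ x, A.act x = B.act x) : A = B := by
  have h0 := h (0, 0)
  have h1 := h (1, 0)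
  have h2 := h (0, 1)
  simp only [Aff.act, Prod.mk.injEq] at h0 h1 h2
  obtain ⟨a, b, c, d, u, v⟩ := A
  obtain ⟨a', b', c', d', u', v'⟩ := B
  simp only at h0 h1 h2
  simp only [Aff.mk.injEq]
  refine ⟨by omega, by omega, by omega, by omega, by omega, by omega⟩

theorem sgA_act (x : ℤ × ℤ) : sgA.act x = (1 - x.1, 4 - x.2) := by
  simp only [Aff.act, sgA]
  ext <;> simp <;> ring

theorem pos_sg (x : ℤ × ℤ) : pos (sgA.act x) = pos (1, 4) - pos x := by
  rw [sgA_act, ← pos_sub]
  rfl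

theorem sg_S0 {s : ℤ × ℤ} (h : s ∈ S0) : sgA.act s ∈ S0 := by
  rcases mem_S0 h with rfl | rfl | rfl | rfl <;> decide

theorem image_refl (t : Set ℂ) : (IsometryEquiv.refl ℂ) '' t = t := by
  ext z
  constructor
  · rintro ⟨w, hw, rfl⟩
    exact hw
  · intro hz
    exact ⟨z, hz, rfl⟩

theorem t_noidio (h2 : S_sym) (h3 : S_pack) (h7 : S_all) (h8 : S_align) (h9 : S_comb)
    (h13 : S_comp) : S_noidio := by
  rintro ⟨F0, hF0, hm0, hi0, hc0⟩
  -- move one tile to the prototile
  obtain ⟨t0, ht0, -⟩ : (0 : ℂ) ∈ ⋃₀ F0 := by rw [hF0.cover]; trivial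
  obtain ⟨k, hk⟩ := hm0 t0 ht0
  obtain ⟨F, hF, hm, hi, hc, hT⟩ : ∃ F : Set (Set ℂ), IsTiling F ∧ Monohedral F T ∧
      Isohedral F ∧ ComponentTransitive F ∧ T ∈ F :=
    ⟨_, tiling_image k.symm hF0, monohedral_image k.symm hm0, isohedral_image k.symm hi0,
      componentTransitive_image k.symm hc0, t0, ht0, by
        change k.symm '' t0 = T
        rw [← hk, image_image_symm]⟩
  clear hF0 hm0 hi0 hc0 ht0 hk k t0 F0
  -- the group
  let G : Set Aff := {A | ∃ g : ℂ ≃ᵢ ℂ, IsSymmetry F g ∧ ∀ x, g (pos x) = pos (A.act x)}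
  have hTrefl : (IsometryEquiv.refl ℂ) '' T = T := image_refl T
  refine h9 G ?_ ?_ ?_ ?_ ?_
  · rintro A ⟨f, hf, hfA⟩ B ⟨g, hg, hgB⟩
    refine ⟨g.trans f, symmetry_trans hg hf, fun x => ?_⟩
    rw [pos_act_mul, ← hfA, ← hgB]
    rfl
  · rintro A ⟨f, hf, hfA⟩ B hAB
    refine ⟨f.symm, symmetry_symm hf, fun x => ?_⟩
    rw [IsometryEquiv.symm_apply_eq, hfA, ← pos_act_mul, hAB, act_one]
  · -- the half-turn
    have hz : (0 : ℂ) ∈ D1 := Or.inl (by rw [pos_zero]; exact mem_hex_self 0)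
    have hw : pos (0, 4) ∈ D2 := Or.inl (mem_hex_self _)
    have hT12 := h13.1
    obtain ⟨c1, c2⟩ := h13.2.2 (IsometryEquiv.refl ℂ)
    simp only [image_refl] at c1 c2
    obtain ⟨g, hg, hgT, hgc⟩ := hc T hT 0 (by rw [hT12]; exact Or.inl hz) (pos (0, 4))
      (by rw [hT12]; exact Or.inr hw)
    rw [c1 0 hz, c2 _ hw] at hgc
    rcases h2 g hgT with h | h
    · exfalso
      have h1 : (0 : ℂ) ∈ D2 := by
        rw [← hgc]
        exact ⟨0, hz, h 0⟩
      exact Set.disjoint_left.1 h13.2.1 hz h1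
    · exact ⟨g, hg, fun x => by rw [h, pos_sg]⟩
  · rintro A ⟨g, hg, hgA⟩ ⟨s, hs, hs'⟩
    have h4 := h3 F hF g (IsometryEquiv.refl ℂ) (symmetry_mem hg hT) (by rw [hTrefl]; exact hT)
      s hs _ hs' (by rw [hgA]; change dist (pos _) (pos _) < 1; rw [dist_self]; norm_num)
    rw [hTrefl] at h4
    rcases h2 g h4.1 with h | h
    · left
      apply aff_ext
      intro x
      apply pos_inj
      rw [← hgA, h, act_one]
    · right
      apply aff_ext
      intro x
      apply pos_inj
      rw [← hgA, h, pos_sg]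
  · intro x
    obtain ⟨k, hk, s, hs, hks, -⟩ := h7 F hF hm hT x
    obtain ⟨g, hg, hgT⟩ := hi T hT _ hk
    obtain ⟨A, hA, hgA⟩ := h8 F hF hm hT g hg
    have h5 : (g.trans k.symm) '' T = T := by
      rw [image_trans, hgT, image_image_symm]
    rcases h2 _ h5 with h | h
    · refine ⟨A, ⟨g, hg, hgA⟩, hA, s, hs, ?_⟩
      apply pos_inj
      rw [← hgA, ← hks]
      have h6 := h (pos s)
      change k.symm (g (pos s)) = pos s at h6
      rwa [IsometryEquiv.symm_apply_eq] at h6
    · refine ⟨A, ⟨g, hg, hgA⟩, hA, sgA.act s, sg_S0 hs, ?_⟩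
      apply pos_inj
      rw [← hgA, ← hks]
      have h6 := h (pos (sgA.act s))
      change k.symm (g (pos (sgA.act s))) = _ at h6
      rw [IsometryEquiv.symm_apply_eq, pos_sg, sub_sub_cancel] at h6
      rw [pos_sg]
      exact h6

end Pool.Agent.Q139.ID
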