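import Pool.Agent.Q139.ID.Bas

set_option autoImplicit false

namespace Pool.Agent.Q139.ID

theorem hex_iff_pos (x : ℤ × ℤ) (X b : ℝ) (z : ℂ) (hX : z.re = X) (hb : √3 / 2 * z.im = b) :
    z ∈ Hex (pos x) ↔ |X - x.1 - x.2 / 2| ≤ 1 / 2 ∧
      |(X - x.1 - x.2 / 2) / 2 + (b - 3 / 4 * x.2)| ≤ 1 / 2 ∧
      |(X - x.1 - x.2 / 2) / 2 - (b - 3 / 4 * x.2)| ≤ 1 / 2 := by
  rw [mem_hex]
  simp only [Complex.sub_re, Complex.sub_im, pos_re, pos_im]
  have e1 : z.re - (x.1 + x.2 / 2) = X - x.1 - x.2 / 2 := by rw [hX]; ring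
  have e2 : √3 / 2 * (z.im - x.2 * (√3 / 2)) = b - 3 / 4 * x.2 := by
    rw [← hb]; linear_combination (-(x.2 : ℝ) / 4) * s3
  rw [e1, e2]

/-- Rounding: real numbers `p, q` (coordinates in the basis `1, ζ`). -/
theorem round_core (p q : ℝ) : ∃ m n : ℤ, |2 * (p - m) + (q - n)| ≤ 1 ∧
    |(p - m) + 2 * (q - n)| ≤ 1 ∧ |(p - m) - (q - n)| ≤ 1 := by
  have e1 := Int.fract_add_floor p
  have e2 := Int.fract_add_floor q
  have a0 := Int.fract_nonneg p
  have a1 := Int.fract_lt_one p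
  have b0 := Int.fract_nonneg q
  have b1 := Int.fract_lt_one q
  set a := Int.fract p
  set b := Int.fract q
  set M := ⌊p⌋
  set N := ⌊q⌋
  have f1 : p - M = a := by linarith
  have f2 : q - N = b := by linarith
  simp only [abs_le]
  by_cases c1 : 2 * a + b ≤ 1 ∧ a + 2 * b ≤ 1
  · refine ⟨M, N, ?_⟩
    rw [f1, f2]
    refine ⟨⟨by linarith, by linarith⟩, ⟨by linarith, by linarith⟩, ⟨by linarith, by linarith⟩⟩
  · by_cases c2 : 2 ≤ 2 * a + b ∧ 2 ≤ a + 2 * b
    · refine ⟨M + 1, N + 1, ?_⟩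
      have g1 : p - ((M + 1 : ℤ) : ℝ) = a - 1 := by push_cast; linarith
      have g2 : q - ((N + 1 : ℤ) : ℝ) = b - 1 := by push_cast; linarith
      rw [g1, g2]
      refine ⟨⟨by linarith, by linarith⟩, ⟨by linarith, by linarith⟩,
        ⟨by linarith, by linarith⟩⟩
    · rcases le_total b a with h | h
      · refine ⟨M + 1, N, ?_⟩
        have g1 : p - ((M + 1 : ℤ) : ℝ) = a - 1 := by push_cast; linarith
        rw [g1, f2]
        have c1' : 1 < 2 * a + b := by
          by_contra hc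
          push Not at hc
          exact c1 ⟨hc, by linarith⟩
        have c2' : a + 2 * b < 2 := by
          by_contra hc
          push Not at hc
          exact c2 ⟨by linarith, hc⟩
        refine ⟨⟨by linarith, by linarith⟩, ⟨by linarith, by linarith⟩,
          ⟨by linarith, by linarith⟩⟩
      · refine ⟨M, N + 1, ?_⟩
        have g2 : q - ((N + 1 : ℤ) : ℝ) = b - 1 := by push_cast; linarith
        rw [f1, g2]
        have c1' : 1 < a + 2 * b := by
          by_contra hc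
          push Not at hc
          exact c1 ⟨by linarith, hc⟩
        have c2' : 2 * a + b < 2 := by
          by_contra hc
          push Not at hc
          exact c2 ⟨hc, by linarith⟩
        refine ⟨⟨by linarith, by linarith⟩, ⟨by linarith, by linarith⟩,
          ⟨by linarith, by linarith⟩⟩

theorem cover_hex (z : ℂ) : ∃ x : ℤ × ℤ, z ∈ Hex (pos x) := by
  have hs := s3pos
  -- z = p + q ζ
  set q : ℝ := 4 / 3 * (√3 / 2 * z.im) with hq
  set p : ℝ := z.re - q / 2 with hp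
  obtain ⟨m, n, h1, h2, h3⟩ := round_core p q
  refine ⟨(m, n), ?_⟩
  rw [hex_iff_pos (m, n) (p + q / 2) (3 / 4 * q) z (by rw [hp]; ring) (by rw [hq]; ring)]
  simp only
  rw [abs_le] at h1 h2 h3
  refine ⟨abs_le.2 ⟨by linarith, by linarith⟩, abs_le.2 ⟨by linarith, by linarith⟩,
    abs_le.2 ⟨by linarith, by linarith⟩⟩

/-- The open hexagon. -/
def OHex (c : ℂ) : Set ℂ :=
  {z | |(z - c).re| < 1 / 2 ∧ |(z - c).re / 2 + √3 / 2 * (z - c).im| < 1 / 2 ∧
    |(z - c).re / 2 - √3 / 2 * (z - c).im| < 1 / 2}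

theorem isOpen_ohex (c : ℂ) : IsOpen (OHex c) := by
  have h0 : Continuous fun z : ℂ => |(z - c).re| := by
    have := Complex.continuous_re; fun_prop
  have h1 : Continuous fun z : ℂ => |(z - c).re / 2 + √3 / 2 * (z - c).im| := by
    have := Complex.continuous_re; have := Complex.continuous_im; fun_prop
  have h2 : Continuous fun z : ℂ => |(z - c).re / 2 - √3 / 2 * (z - c).im| := by
    have := Complex.continuous_re; have := Complex.continuous_im; fun_prop
  exact (isOpen_lt h0 continuous_const).inter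
    ((isOpen_lt h1 continuous_const).inter (isOpen_lt h2 continuous_const))

theorem ohex_eq {x y : ℤ × ℤ} {z : ℂ} (hx : z ∈ OHex (pos x)) (hy : z ∈ OHex (pos y)) :
    x = y := by
  obtain ⟨a0, a1, a2⟩ := hx
  obtain ⟨b0, b1, b2⟩ := hy
  simp only [Complex.sub_re, Complex.sub_im, pos_re, pos_im, abs_lt] at a0 a1 a2 b0 b1 b2
  have e : ∀ n : ℤ, √3 / 2 * (z.im - n * (√3 / 2)) = √3 / 2 * z.im - 3 / 4 * n := by
    intro n; linear_combination (-(n : ℝ) / 4) * s3
  rw [e] at a1 a2 b1 b2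
  obtain ⟨x1, x2⟩ := x
  obtain ⟨y1, y2⟩ := y
  simp only at a0 a1 a2 b0 b1 b2
  have k1 : (2 * (x1 - y1) + (x2 - y2) : ℝ) < 2 := by linarith [a0.1, a0.2, b0.1, b0.2]
  have k2 : (-2 : ℝ) < 2 * (x1 - y1) + (x2 - y2) := by linarith [a0.1, a0.2, b0.1, b0.2]
  have k3 : ((x1 - y1) + 2 * (x2 - y2) : ℝ) < 2 := by linarith [a1.1, a1.2, b1.1, b1.2]
  have k4 : (-2 : ℝ) < (x1 - y1) + 2 * (x2 - y2) := by linarith [a1.1, a1.2, b1.1, b1.2]
  have k5 : ((x1 - y1) - (x2 - y2) : ℝ) < 2 := by linarith [a2.1, a2.2, b2.1, b2.2]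
  have k6 : (-2 : ℝ) < (x1 - y1) - (x2 - y2) := by linarith [a2.1, a2.2, b2.1, b2.2]
  have l1 : 2 * (x1 - y1) + (x2 - y2) < 2 := by exact_mod_cast k1
  have l2 : -2 < 2 * (x1 - y1) + (x2 - y2) := by exact_mod_cast k2
  have l3 : (x1 - y1) + 2 * (x2 - y2) < 2 := by exact_mod_cast k3
  have l4 : -2 < (x1 - y1) + 2 * (x2 - y2) := by exact_mod_cast k4
  have l5 : (x1 - y1) - (x2 - y2) < 2 := by exact_mod_cast k5
  have l6 : -2 < (x1 - y1) - (x2 - y2) := by exact_mod_cast k6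
  rw [Prod.mk.injEq]
  constructor <;> omega

/-- An open set that meets a closed hexagon meets the open hexagon. -/
theorem meet_ohex {U : Set ℂ} (hU : IsOpen U) {c z : ℂ} (hz : z ∈ U) (hzc : z ∈ Hex c) :
    ∃ w ∈ U, w ∈ OHex c := by
  have hcont : Continuous fun t : ℝ => c + (t : ℂ) * (z - c) := by fun_prop
  have hmem : (fun t : ℝ => c + (t : ℂ) * (z - c)) 1 ∈ U := by simpa using hz
  have h1 := (hU.preimage hcont).mem_nhds hmem
  rw [Metric.mem_nhds_iff] at h1
  obtain ⟨ε, hε, h2⟩ := h1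
  set t : ℝ := 1 - min (ε / 2) (1 / 2) with ht
  have m1 : 0 < min (ε / 2) (1 / 2) := lt_min (by linarith) (by norm_num)
  have m2 : min (ε / 2) (1 / 2) ≤ ε / 2 := min_le_left _ _
  have m3 : min (ε / 2) (1 / 2) ≤ 1 / 2 := min_le_right _ _
  have ht1 : t < 1 := by linarith
  have ht0 : 0 ≤ t := by linarith
  have h3 : t ∈ Metric.ball (1 : ℝ) ε := by
    rw [Metric.mem_ball, Real.dist_eq, abs_lt]; constructor <;> linarith
  refine ⟨_, h2 h3, ?_⟩
  obtain ⟨a0, a1, a2⟩ := hzc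
  set w := z - c with hw
  have e0 : (c + (t : ℂ) * w - c).re = t * w.re := by simp
  have e1 : (c + (t : ℂ) * w - c).im = t * w.im := by simp
  have lt_of : ∀ r : ℝ, |r| ≤ 1 / 2 → |t * r| < 1 / 2 := by
    intro r hr
    rw [abs_mul, abs_of_nonneg ht0]
    nlinarith [abs_nonneg r]
  refine ⟨?_, ?_, ?_⟩
  · rw [e0]; exact lt_of _ a0
  · rw [e0, e1, show t * w.re / 2 + √3 / 2 * (t * w.im) = t * (w.re / 2 + √3 / 2 * w.im) by ring]
    exact lt_of _ a1
  · rw [e0, e1, show t * w.re / 2 - √3 / 2 * (t * w.im) = t * (w.re / 2 - √3 / 2 * w.im) by ring]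
    exact lt_of _ a2

theorem t_cover : S_cover := by
  refine ⟨cover_hex, ?_, ?_⟩
  · intro S S' hSS
    rw [Set.disjoint_left]
    intro z hz hz'
    have hU : IsOpen (interior (reg S) ∩ interior (reg S')) := isOpen_interior.inter
      isOpen_interior
    obtain ⟨x, hx, hzx⟩ := interior_subset hz
    obtain ⟨w, hw, hwx⟩ := meet_ohex hU ⟨hz, hz'⟩ hzx
    obtain ⟨y, hy, hwy⟩ := interior_subset hw.2
    obtain ⟨v, hv, hvy⟩ := meet_ohex (hU.inter (isOpen_ohex (pos x))) ⟨hw, hwx⟩ hwy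
    have := ohex_eq hv.2 hvy
    subst this
    exact Finset.disjoint_left.1 hSS hx hy
  · intro S
    have : reg S = ⋃ x ∈ S, Hex (pos x) := by
      ext z; simp [reg]
    rw [this]
    exact S.finite_toSet.isClosed_biUnion fun x _ => isClosed_hex _

end Pool.Agent.Q139.ID
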