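import Pool.Agent.Q139.ID.Bas

set_option autoImplicit false

namespace Pool.Agent.Q139.ID

open ComplexConjugate

/-- The translation by `pos l`. -/
noncomputable def trI (l : ℤ × ℤ) : ℂ ≃ᵢ ℂ := IsometryEquiv.addRight (pos l)

/-- The reflection `z ↦ ζ z̄` followed by the translation by `pos l`. -/
noncomputable def rfI (l : ℤ × ℤ) : ℂ ≃ᵢ ℂ :=
  IsometryEquiv.mk' (fun z => ze * conj z + pos l) (fun z => ze * conj (z - pos l))
    (fun z => by
      have h : ze * conj ze = 1 := by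
        rw [Complex.mul_conj, Complex.normSq_eq_norm_sq, norm_ze]; norm_num
      simp only [map_mul, Complex.conj_conj, map_sub]
      linear_combination (z - pos l) * h)
    (by
      apply Isometry.of_dist_eq
      intro z w
      rw [dist_eq_norm, dist_eq_norm]
      have : ze * conj z + pos l - (ze * conj w + pos l) = ze * conj (z - w) := by
        rw [map_sub]; ring
      rw [this, norm_mul, norm_ze, one_mul, Complex.norm_conj])

theorem trI_apply (l : ℤ × ℤ) (z : ℂ) : trI l z = z + pos l := rfl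
theorem rfI_apply (l : ℤ × ℤ) (z : ℂ) : rfI l z = ze * conj z + pos l := rfl

theorem trI_hex (l s : ℤ × ℤ) : trI l '' Hex (pos s) = Hex (pos (s + l)) := by
  ext z
  constructor
  · rintro ⟨w, hw, rfl⟩
    rw [trI_apply, pos_add, mem_hex_add]
    exact hw
  · intro hz
    refine ⟨z - pos l, ?_, by simp [trI_apply]⟩
    rw [pos_add] at hz
    rw [← mem_hex_add _ _ (pos l), sub_add_cancel]
    exact hz

theorem ze_conj_pos (s : ℤ × ℤ) : ze * conj (pos s) = pos (s.2, s.1) := by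
  apply Complex.ext
  · simp only [Complex.mul_re, Complex.conj_re, Complex.conj_im, ze_re, ze_im, pos_re, pos_im]
    linear_combination ((s.2 : ℝ) / 4) * s3
  · simp only [Complex.mul_im, Complex.conj_re, Complex.conj_im, ze_re, ze_im, pos_re, pos_im]
    ring

theorem mem_rf {s : ℤ × ℤ} {z : ℂ} :
    ze * conj z ∈ Hex (pos (s.2, s.1)) ↔ z ∈ Hex (pos s) := by
  rw [mem_hex_sub, ← ze_conj_pos, ← mul_sub, ← map_sub, mem_hex_sub (pos s)]
  have := ze_pow_mul_mem_hex_iff 1 (z := conj (z - pos s))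
  rw [pow_one] at this
  rw [this, conj_mem_hex]

theorem rfI_hex (l s : ℤ × ℤ) : rfI l '' Hex (pos s) = Hex (pos ((s.2, s.1) + l)) := by
  ext z
  constructor
  · rintro ⟨w, hw, rfl⟩
    rw [rfI_apply, pos_add, mem_hex_add, mem_rf]
    exact hw
  · intro hz
    refine ⟨(rfI l).symm z, ?_, by simp⟩
    rw [← mem_rf]
    have h1 : ze * conj ((rfI l).symm z) + pos l = z := by
      rw [← rfI_apply]; simp
    rw [pos_add, ← h1, mem_hex_add] at hz
    exact hz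

theorem trI_T (l : ℤ × ℤ) : trI l '' T = reg (cellsA l) := by
  ext z
  rw [image_T]
  constructor
  · rintro ⟨s, hs, hz⟩
    rw [trI_hex] at hz
    exact ⟨s + l, Finset.mem_image.2 ⟨s, hs, rfl⟩, hz⟩
  · rintro ⟨x, hx, hz⟩
    obtain ⟨s, hs, rfl⟩ := Finset.mem_image.1 hx
    exact ⟨s, hs, by rw [trI_hex]; exact hz⟩

theorem rfI_T (l : ℤ × ℤ) : rfI (l - (2, 0)) '' T = reg (cellsB l) := by
  ext z
  rw [image_T]
  constructor
  · rintro ⟨s, hs, hz⟩
    rw [rfI_hex] at hz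
    refine ⟨(s.2, s.1) + l - (2, 0), Finset.mem_image.2 ⟨s, hs, rfl⟩, ?_⟩
    rw [add_sub_assoc]
    exact hz
  · rintro ⟨x, hx, hz⟩
    obtain ⟨s, hs, rfl⟩ := Finset.mem_image.1 hx
    refine ⟨s, hs, ?_⟩
    rw [rfI_hex, ← add_sub_assoc]
    exact hz

theorem mem_cellsA {l x : ℤ × ℤ} : x ∈ cellsA l ↔
    x = l ∨ x = (l.1 + 1, l.2) ∨ x = (l.1, l.2 + 4) ∨ x = (l.1 + 1, l.2 + 4) := by
  rw [cellsA, Finset.mem_image]
  constructor
  · rintro ⟨s, hs, rfl⟩
    rcases mem_S0 hs with rfl | rfl | rfl | rfl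
    · left; ext <;> simp
    · right; left; ext <;> simp [add_comm]
    · right; right; left; ext <;> simp [add_comm]
    · right; right; right; ext <;> simp [add_comm]
  · rintro (rfl | rfl | rfl | rfl)
    · exact ⟨(0, 0), by decide, by ext <;> simp⟩
    · exact ⟨(1, 0), by decide, by ext <;> simp [add_comm]⟩
    · exact ⟨(0, 4), by decide, by ext <;> simp [add_comm]⟩
    · exact ⟨(1, 4), by decide, by ext <;> simp [add_comm]⟩

theorem mem_cellsB {l x : ℤ × ℤ} : x ∈ cellsB l ↔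
    x = (l.1 - 2, l.2) ∨ x = (l.1 - 2, l.2 + 1) ∨ x = (l.1 + 2, l.2) ∨
      x = (l.1 + 2, l.2 + 1) := by
  rw [cellsB, Finset.mem_image]
  constructor
  · rintro ⟨s, hs, rfl⟩
    rcases mem_S0 hs with rfl | rfl | rfl | rfl
    · left; ext <;> simp
    · right; left; ext <;> simp [add_comm]
    · right; right; left; ext <;> simp <;> ring
    · right; right; right; ext <;> simp <;> ring
  · rintro (rfl | rfl | rfl | rfl)
    · exact ⟨(0, 0), by decide, by ext <;> simp⟩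
    · exact ⟨(1, 0), by decide, by ext <;> simp [add_comm]⟩
    · exact ⟨(0, 4), by decide, by ext <;> simp <;> ring⟩
    · exact ⟨(1, 4), by decide, by ext <;> simp <;> ring⟩

theorem cover_cells (x : ℤ × ℤ) : ∃ l : ℤ × ℤ, (8 : ℤ) ∣ l.1 + 5 * l.2 ∧
    (x ∈ cellsA l ∨ x ∈ cellsB l) := by
  obtain ⟨a, b⟩ := x
  have h : (a + 5 * b) % 8 = 0 ∨ (a + 5 * b) % 8 = 1 ∨ (a + 5 * b) % 8 = 2 ∨
      (a + 5 * b) % 8 = 3 ∨ (a + 5 * b) % 8 = 4 ∨ (a + 5 * b) % 8 = 5 ∨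
      (a + 5 * b) % 8 = 6 ∨ (a + 5 * b) % 8 = 7 := by omega
  rcases h with h | h | h | h | h | h | h | h
  · exact ⟨(a, b), by simp only; omega, Or.inl (mem_cellsA.2 (Or.inl rfl))⟩
  · exact ⟨(a - 1, b), by simp only; omega, Or.inl (mem_cellsA.2 (by simp))⟩
  · exact ⟨(a - 2, b), by simp only; omega, Or.inr (mem_cellsB.2 (by simp))⟩
  · exact ⟨(a + 2, b - 1), by simp only; omega, Or.inr (mem_cellsB.2 (by simp))⟩
  · exact ⟨(a, b - 4), by simp only; omega, Or.inl (mem_cellsA.2 (by simp))⟩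
  · exact ⟨(a - 1, b - 4), by simp only; omega, Or.inl (mem_cellsA.2 (by simp))⟩
  · exact ⟨(a + 2, b), by simp only; omega, Or.inr (mem_cellsB.2 (by simp))⟩
  · exact ⟨(a - 2, b - 1), by simp only; omega, Or.inr (mem_cellsB.2 (by simp))⟩

theorem disj_AA {l l' : ℤ × ℤ} (h : (8 : ℤ) ∣ l.1 + 5 * l.2) (h' : (8 : ℤ) ∣ l'.1 + 5 * l'.2)
    (hne : l ≠ l') : Disjoint (cellsA l) (cellsA l') := by
  rw [Finset.disjoint_left]
  intro x hx hx'
  rw [mem_cellsA] at hx hx'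
  apply hne
  obtain ⟨a, b⟩ := l
  obtain ⟨a', b'⟩ := l'
  obtain ⟨p, q⟩ := x
  simp only [Prod.mk.injEq] at hx hx' h h' ⊢
  omega

theorem disj_BB {l l' : ℤ × ℤ} (h : (8 : ℤ) ∣ l.1 + 5 * l.2) (h' : (8 : ℤ) ∣ l'.1 + 5 * l'.2)
    (hne : l ≠ l') : Disjoint (cellsB l) (cellsB l') := by
  rw [Finset.disjoint_left]
  intro x hx hx'
  rw [mem_cellsB] at hx hx'
  apply hne
  obtain ⟨a, b⟩ := l
  obtain ⟨a', b'⟩ := l'
  obtain ⟨p, q⟩ := x
  simp only [Prod.mk.injEq] at hx hx' h h' ⊢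
  omega

theorem disj_AB {l l' : ℤ × ℤ} (h : (8 : ℤ) ∣ l.1 + 5 * l.2) (h' : (8 : ℤ) ∣ l'.1 + 5 * l'.2) :
    Disjoint (cellsA l) (cellsB l') := by
  rw [Finset.disjoint_left]
  intro x hx hx'
  rw [mem_cellsA] at hx
  rw [mem_cellsB] at hx'
  obtain ⟨a, b⟩ := l
  obtain ⟨a', b'⟩ := l'
  obtain ⟨p, q⟩ := x
  simp only [Prod.mk.injEq] at hx hx' h h'
  omega

theorem t_tiling (h : S_cover) : S_tiling := by
  obtain ⟨h1, h2, h3⟩ := h
  refine ⟨⟨?_, ?_, ?_, ?_⟩, ?_⟩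
  · have : F1 ⊆ Set.range (fun l : ℤ × ℤ => reg (cellsA l)) ∪
        Set.range (fun l : ℤ × ℤ => reg (cellsB l)) := by
      rintro t ⟨l, -, rfl | rfl⟩
      · exact Or.inl ⟨l, rfl⟩
      · exact Or.inr ⟨l, rfl⟩
    exact ((Set.countable_range _).union (Set.countable_range _)).mono this
  · rintro t ⟨l, -, rfl | rfl⟩
    · exact h3 _
    · exact h3 _
  · rw [Set.eq_univ_iff_forall]
    intro z
    obtain ⟨x, hx⟩ := h1 z
    obtain ⟨l, hl, hc | hc⟩ := cover_cells x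
    · exact ⟨_, ⟨l, hl, Or.inl rfl⟩, x, hc, hx⟩
    · exact ⟨_, ⟨l, hl, Or.inr rfl⟩, x, hc, hx⟩
  · rintro t ⟨l, hl, rfl | rfl⟩ t' ⟨l', hl', rfl | rfl⟩ hne
    · exact h2 _ _ (disj_AA hl hl' fun h' => hne (by rw [h']))
    · exact h2 _ _ (disj_AB hl hl')
    · exact h2 _ _ (disj_AB hl' hl).symm
    · exact h2 _ _ (disj_BB hl hl' fun h' => hne (by rw [h']))
  · rintro t ⟨l, -, rfl | rfl⟩
    · exact ⟨_, trI_T l⟩
    · exact ⟨_, rfI_T l⟩

end Pool.Agent.Q139.ID
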