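import Pool.Agent.Q139.ID.Bas

set_option autoImplicit false

namespace Pool.Agent.Q139.ID

theorem im_hex' {c z : ℂ} (h : z ∈ Hex c) : |z.im - c.im| ≤ 0.6 := by
  obtain ⟨h0, h1, h2⟩ := h
  simp only [Complex.sub_re, Complex.sub_im] at h0 h1 h2
  have hs := s3
  have hs0 := s3pos
  have hs2 : 1.732 < √3 := by nlinarith
  rw [abs_le] at h0 h1 h2
  set y := z.im - c.im
  have h3 : √3 * y ≤ 1 := by linarith
  have h4 : -(√3 * y) ≤ 1 := by linarith
  rw [abs_le]
  constructor
  · by_contra hc
    push Not at hc
    nlinarith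
  · by_contra hc
    push Not at hc
    nlinarith

theorem T_eq : T = D1 ∪ D2 := by
  ext z
  rw [mem_T]
  constructor
  · rintro ⟨s, hs, hz⟩
    rcases mem_S0 hs with rfl | rfl | rfl | rfl
    · exact Or.inl (Or.inl hz)
    · exact Or.inl (Or.inr hz)
    · exact Or.inr (Or.inl hz)
    · exact Or.inr (Or.inr hz)
  · rintro ((hz | hz) | (hz | hz))
    · exact ⟨_, by decide, hz⟩
    · exact ⟨_, by decide, hz⟩
    · exact ⟨_, by decide, hz⟩
    · exact ⟨_, by decide, hz⟩

theorem disj12 : Disjoint D1 D2 := by
  rw [Set.disjoint_left]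
  have hs := s3
  have hs0 := s3pos
  have hs2 : 1.732 < √3 := by nlinarith
  have h1 : ∀ z ∈ D1, |z.im| ≤ 0.6 := by
    rintro z (hz | hz)
    · have := im_hex' hz
      rw [pos_im] at this
      push_cast at this
      simpa using this
    · have := im_hex' hz
      rw [pos_im] at this
      push_cast at this
      simpa using this
  have h2 : ∀ z ∈ D2, |z.im - 2 * √3| ≤ 0.6 := by
    rintro z (hz | hz)
    · have := im_hex' hz
      rw [pos_im] at this
      push_cast at this
      rwa [show (4 : ℝ) * (√3 / 2) = 2 * √3 by ring] at this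
    · have := im_hex' hz
      rw [pos_im] at this
      push_cast at this
      rwa [show (4 : ℝ) * (√3 / 2) = 2 * √3 by ring] at this
  intro z hz hz'
  have h3 := h1 z hz
  have h4 := h2 z hz'
  rw [abs_le] at h3 h4
  linarith

theorem preconn_two (c : ℂ) : IsPreconnected (Hex c ∪ Hex (c + 1)) := by
  apply IsPreconnected.union (c + 1 / 2)
  · rw [mem_hex]
    simp
    norm_num
  · rw [mem_hex]
    rw [show c + 1 / 2 - (c + 1) = -(1 / 2 : ℂ) by ring]
    simp
    norm_num
  · exact (convex_hex _).isPreconnected
  · exact (convex_hex _).isPreconnected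

theorem preconn1 : IsPreconnected D1 := by
  have := preconn_two 0
  rw [zero_add] at this
  rw [D1, pos_zero, pos_one]
  exact this

theorem preconn2 : IsPreconnected D2 := by
  have := preconn_two (pos (0, 4))
  rw [D2, show ((1, 4) : ℤ × ℤ) = (0, 4) + (1, 0) from rfl, pos_add, pos_one]
  exact this

theorem comp_left {A B : Set ℂ} (hA : IsClosed A) (hB : IsClosed B) (h : Disjoint A B)
    (hc : IsPreconnected A) {z : ℂ} (hz : z ∈ A) : connectedComponentIn (A ∪ B) z = A := by
  apply Set.Subset.antisymm
  · have h1 : IsPreconnected (connectedComponentIn (A ∪ B) z) :=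
      isPreconnected_connectedComponentIn
    have h2 := connectedComponentIn_subset (A ∪ B) z
    have hz' : z ∈ connectedComponentIn (A ∪ B) z := mem_connectedComponentIn (Or.inl hz)
    have h3 := isPreconnected_iff_subset_of_disjoint_closed.1 h1 A B hA hB h2
      (by rw [h.inter_eq]; simp)
    rcases h3 with h3 | h3
    · exact h3
    · exact (Set.disjoint_left.1 h hz (h3 hz')).elim
  · exact hc.subset_connectedComponentIn hz Set.subset_union_left

theorem t_comp : S_comp := by
  refine ⟨T_eq, disj12, ?_⟩
  intro g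
  have c1 : IsClosed (g '' D1) :=
    g.toHomeomorph.isClosedMap _ ((isClosed_hex _).union (isClosed_hex _))
  have c2 : IsClosed (g '' D2) :=
    g.toHomeomorph.isClosedMap _ ((isClosed_hex _).union (isClosed_hex _))
  have p1 : IsPreconnected (g '' D1) := preconn1.image _ g.continuous.continuousOn
  have p2 : IsPreconnected (g '' D2) := preconn2.image _ g.continuous.continuousOn
  have hd : Disjoint (g '' D1) (g '' D2) := (Set.disjoint_image_iff g.injective).2 disj12
  have hT : g '' T = g '' D1 ∪ g '' D2 := by rw [T_eq, Set.image_union]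
  constructor
  · intro z hz
    rw [hT]
    exact comp_left c1 c2 hd p1 hz
  · intro z hz
    rw [hT, Set.union_comm]
    exact comp_left c2 c1 hd.symm p2 hz

end Pool.Agent.Q139.ID
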