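import Pool.Agent.Q139.ID.Bas

set_option autoImplicit false

namespace Pool.Agent.Q139.ID

/-- half the height of the dihex over the abscissa `x` -/
noncomputable def hh (x : ℝ) : ℝ := max ((1 - |(|x - 1 / 2| - 1 / 2)|) / √3) (1 / 10)

theorem hh_pos (x : ℝ) : 0 < hh x := lt_of_lt_of_le (by norm_num) (le_max_right _ _)

theorem hh_cont : Continuous hh := by unfold hh; fun_prop

theorem hh_eq {x : ℝ} (hx : |x - 1 / 2| ≤ 1) :
    hh x = (1 - |(|x - 1 / 2| - 1 / 2)|) / √3 := by
  apply max_eq_left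
  have hs := s3
  have hs0 := s3pos
  have hs1 : √3 < 1.7321 := by nlinarith
  rw [le_div_iff₀ hs0]
  have h1 : |(|x - 1 / 2| - 1 / 2)| ≤ 1 / 2 := by
    rw [abs_le]
    constructor
    · linarith [abs_nonneg (x - 1 / 2)]
    · linarith
  linarith

theorem hex_iff {x y : ℝ} : (|x| ≤ 1 / 2 ∧ |x / 2 + √3 / 2 * y| ≤ 1 / 2 ∧
    |x / 2 - √3 / 2 * y| ≤ 1 / 2) ↔ |x| ≤ 1 / 2 ∧ |y| ≤ (1 - |x|) / √3 := by
  have hs0 := s3pos
  rw [le_div_iff₀ hs0]
  have e : |y| * √3 = |√3 * y| := by rw [abs_mul, abs_of_pos hs0, mul_comm]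
  rw [e]
  constructor
  · rintro ⟨h0, h1, h2⟩
    refine ⟨h0, ?_⟩
    rw [abs_le] at h1 h2 ⊢
    rcases abs_cases x with ⟨h3, h4⟩ | ⟨h3, h4⟩ <;> rw [h3] <;> constructor <;> linarith
  · rintro ⟨h0, h1⟩
    have h2 := neg_abs_le x
    have h3 := le_abs_self x
    rw [abs_le] at h1
    refine ⟨h0, ?_, ?_⟩ <;> rw [abs_le] <;> constructor <;> linarith [h1.1, h1.2]

theorem mem_D1 (z : ℂ) : z ∈ D1 ↔ |z.re - 1 / 2| ≤ 1 ∧ |z.im| ≤ hh z.re := by
  rw [D1, Set.mem_union, mem_hex, mem_hex, pos_zero, pos_one]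
  simp only [sub_zero, Complex.sub_re, Complex.sub_im, Complex.one_re, Complex.one_im]
  rw [hex_iff, hex_iff]
  have hs0 := s3pos
  constructor
  · rintro (⟨h1, h2⟩ | ⟨h1, h2⟩)
    · have h3 := abs_le.1 h1
      have h4 : |z.re - 1 / 2| ≤ 1 := by rw [abs_le]; constructor <;> linarith
      refine ⟨h4, ?_⟩
      rw [hh_eq h4]
      have h5 : |z.re - 1 / 2| = 1 / 2 - z.re := by
        rw [abs_of_nonpos (by linarith)]; ring
      have h6 : |(|z.re - 1 / 2| - 1 / 2)| = |z.re| := by
        rw [h5, show 1 / 2 - z.re - 1 / 2 = -z.re by ring, abs_neg]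
      rw [h6]; exact h2
    · have h3 := abs_le.1 h1
      have h4 : |z.re - 1 / 2| ≤ 1 := by rw [abs_le]; constructor <;> linarith
      refine ⟨h4, ?_⟩
      rw [hh_eq h4]
      have h5 : |z.re - 1 / 2| = z.re - 1 / 2 := by
        rw [abs_of_nonneg (by linarith)]
      have h6 : |(|z.re - 1 / 2| - 1 / 2)| = |z.re - 1| := by
        rw [h5]; congr 1; ring
      rw [h6]; exact h2
  · rintro ⟨h1, h2⟩
    rw [hh_eq h1] at h2
    rcases le_total z.re (1 / 2) with h3 | h3
    · left
      have h5 : |z.re - 1 / 2| = 1 / 2 - z.re := by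
        rw [abs_of_nonpos (by linarith)]; ring
      have h6 : |(|z.re - 1 / 2| - 1 / 2)| = |z.re| := by
        rw [h5, show 1 / 2 - z.re - 1 / 2 = -z.re by ring, abs_neg]
      rw [h6] at h2
      rw [h5] at h1
      exact ⟨abs_le.2 ⟨by linarith, by linarith⟩, h2⟩
    · right
      have h5 : |z.re - 1 / 2| = z.re - 1 / 2 := by
        rw [abs_of_nonneg (by linarith)]
      have h6 : |(|z.re - 1 / 2| - 1 / 2)| = |z.re - 1| := by
        rw [h5]; congr 1; ring
      rw [h6] at h2
      rw [h5] at h1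
      exact ⟨abs_le.2 ⟨by linarith, by linarith⟩, h2⟩

/-- The homeomorphism straightening the dihex. -/
noncomputable def Phi : ℂ ≃ₜ ℂ where
  toFun z := ⟨z.re - 1 / 2, z.im / hh z.re⟩
  invFun w := ⟨w.re + 1 / 2, w.im * hh (w.re + 1 / 2)⟩
  left_inv z := by
    have := (hh_pos z.re).ne'
    apply Complex.ext
    · simp
    · simp only [sub_add_cancel]; field_simp
  right_inv w := by
    have := (hh_pos (w.re + 1 / 2)).ne'
    apply Complex.ext
    · simp
    · exact mul_div_cancel_right₀ _ this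
  continuous_toFun := by
    have h1 : Continuous fun z : ℂ => z.re - 1 / 2 := by
      have := Complex.continuous_re; fun_prop
    have h2 : Continuous fun z : ℂ => z.im / hh z.re :=
      Complex.continuous_im.div (hh_cont.comp Complex.continuous_re) fun z => (hh_pos _).ne'
    exact Complex.equivRealProdCLM.symm.continuous.comp (h1.prodMk h2)
  continuous_invFun := by
    have h1 : Continuous fun z : ℂ => z.re + 1 / 2 := by
      have := Complex.continuous_re; fun_prop
    have h2 : Continuous fun z : ℂ => z.im * hh (z.re + 1 / 2) :=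
      Complex.continuous_im.mul (hh_cont.comp h1)
    exact Complex.equivRealProdCLM.symm.continuous.comp (h1.prodMk h2)

/-- The square. -/
def Sq : Set ℂ := {z | |z.re| ≤ 1 ∧ |z.im| ≤ 1}

theorem Phi_D1 : Phi '' D1 = Sq := by
  ext w
  constructor
  · rintro ⟨z, hz, rfl⟩
    rw [mem_D1] at hz
    refine ⟨hz.1, ?_⟩
    change |z.im / hh z.re| ≤ 1
    rw [abs_div, abs_of_pos (hh_pos _), div_le_one (hh_pos _)]
    exact hz.2
  · rintro ⟨h1, h2⟩
    refine ⟨Phi.symm w, ?_, by simp⟩
    rw [mem_D1]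
    change |w.re + 1 / 2 - 1 / 2| ≤ 1 ∧ |w.im * hh (w.re + 1 / 2)| ≤ hh (w.re + 1 / 2)
    rw [add_sub_cancel_right]
    refine ⟨h1, ?_⟩
    rw [abs_mul, abs_of_pos (hh_pos _)]
    have := hh_pos (w.re + 1 / 2)
    nlinarith

theorem convex_Sq : Convex ℝ Sq := by
  intro z hz w hw a b ha hb hab
  obtain ⟨hz0, hz1⟩ := hz
  obtain ⟨hw0, hw1⟩ := hw
  have hb' : b = 1 - a := by linarith
  subst hb'
  rw [abs_le] at hz0 hz1 hw0 hw1
  constructor
  · simp only [Complex.add_re, Complex.smul_re, smul_eq_mul]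
    exact abs_le.2 ⟨by nlinarith, by nlinarith⟩
  · simp only [Complex.add_im, Complex.smul_im, smul_eq_mul]
    exact abs_le.2 ⟨by nlinarith, by nlinarith⟩

theorem closed_Sq : IsClosed Sq := by
  have h0 : Continuous fun z : ℂ => |z.re| := by
    have := Complex.continuous_re; fun_prop
  have h1 : Continuous fun z : ℂ => |z.im| := by
    have := Complex.continuous_im; fun_prop
  exact (isClosed_le h0 continuous_const).inter (isClosed_le h1 continuous_const)

theorem bounded_Sq : Bornology.IsBounded Sq := by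
  apply (Metric.isBounded_closedBall (x := (0 : ℂ)) (r := 2)).subset
  intro z hz
  rw [Metric.mem_closedBall, dist_zero_right]
  calc ‖z‖ ≤ |z.re| + |z.im| := Complex.norm_le_abs_re_add_abs_im z
    _ ≤ 2 := by linarith [hz.1, hz.2]

theorem interior_Sq : (interior Sq).Nonempty := by
  refine ⟨0, ?_⟩
  rw [mem_interior]
  refine ⟨Metric.ball 0 1, ?_, Metric.isOpen_ball, Metric.mem_ball_self (by norm_num)⟩
  intro z hz
  rw [Metric.mem_ball, dist_zero_right] at hz
  exact ⟨(Complex.abs_re_le_norm z).trans hz.le, (Complex.abs_im_le_norm z).trans hz.le⟩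

theorem disk_D1 : IsClosedDisk D1 := by
  obtain ⟨h, _, h2, _⟩ := exists_homeomorph_image_interior_closure_frontier_eq_unitBall
    convex_Sq interior_Sq bounded_Sq
  rw [closed_Sq.closure_eq] at h2
  exact ⟨((Phi.image D1).trans (Homeomorph.setCongr Phi_D1)).trans
    ((h.image Sq).trans (Homeomorph.setCongr h2))⟩

theorem D2_eq : (Homeomorph.addRight (pos (0, 4))) '' D1 = D2 := by
  ext z
  constructor
  · rintro ⟨w, (hw | hw), rfl⟩
    · left
      change w + pos (0, 4) ∈ Hex (pos (0, 4))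
      rw [mem_hex_sub, add_sub_cancel_right]
      rwa [pos_zero] at hw
    · right
      change w + pos (0, 4) ∈ Hex (pos (1, 4))
      rw [show ((1, 4) : ℤ × ℤ) = (1, 0) + (0, 4) from rfl, pos_add, mem_hex_add]
      exact hw
  · rintro (hz | hz)
    · refine ⟨z - pos (0, 4), Or.inl ?_, by simp⟩
      rw [mem_hex_sub] at hz
      rw [pos_zero]; exact hz
    · refine ⟨z - pos (0, 4), Or.inr ?_, by simp⟩
      rw [show ((1, 4) : ℤ × ℤ) = (1, 0) + (0, 4) from rfl, pos_add] at hz
      rw [← mem_hex_add _ _ (pos (0, 4)), sub_add_cancel]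
      exact hz

theorem t_disk : S_disk := by
  refine ⟨disk_D1, ?_⟩
  obtain ⟨e⟩ := disk_D1
  exact ⟨(((Homeomorph.addRight (pos (0, 4))).image D1).trans
    (Homeomorph.setCongr D2_eq)).symm.trans e⟩

end Pool.Agent.Q139.ID
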