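import Pool.Agent.Q139.ID.Bas
import Pool.Agent.Q139.ID.J12

set_option autoImplicit false

namespace Pool.Agent.Q139.ID

/-- The half-turn `z ↦ pos k - z`. -/
noncomputable def htI (k : ℤ × ℤ) : ℂ ≃ᵢ ℂ := IsometryEquiv.subLeft (pos k)

theorem htI_apply (k : ℤ × ℤ) (z : ℂ) : htI k z = pos k - z := rfl

theorem htI_mem_hex (k x : ℤ × ℤ) (z : ℂ) : htI k z ∈ Hex (pos (k - x)) ↔ z ∈ Hex (pos x) := by
  rw [htI_apply, mem_hex_sub, mem_hex_sub (pos x), pos_sub]
  constructor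
  · intro h
    have := neg_mem_hex h
    convert this using 1
    ring
  · intro h
    have := neg_mem_hex h
    convert this using 1
    ring

theorem htI_reg (k : ℤ × ℤ) (S S' : Finset (ℤ × ℤ)) (h : ∀ x, x ∈ S' ↔ k - x ∈ S) :
    htI k '' reg S = reg S' := by
  ext z
  constructor
  · rintro ⟨w, ⟨x, hx, hw⟩, rfl⟩
    refine ⟨k - x, ?_, (htI_mem_hex k x w).2 hw⟩
    rw [h, sub_sub_cancel]; exact hx
  · rintro ⟨x, hx, hz⟩
    refine ⟨pos k - z, ⟨k - x, (h x).1 hx, ?_⟩, by simp [htI_apply]⟩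
    have := (htI_mem_hex k (k - x) (pos k - z))
    rw [sub_sub_cancel, htI_apply, sub_sub_cancel] at this
    exact this.1 hz

theorem htI_A (k l : ℤ × ℤ) : htI k '' reg (cellsA l) = reg (cellsA (k - l - (1, 4))) := by
  apply htI_reg
  intro x
  rw [mem_cellsA, mem_cellsA]
  obtain ⟨a, b⟩ := x
  obtain ⟨k1, k2⟩ := k
  obtain ⟨l1, l2⟩ := l
  simp only [Prod.mk_sub_mk, Prod.mk.injEq]
  omega

theorem htI_B (k l : ℤ × ℤ) : htI k '' reg (cellsB l) = reg (cellsB (k - l - (0, 1))) := by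
  apply htI_reg
  intro x
  rw [mem_cellsB, mem_cellsB]
  obtain ⟨a, b⟩ := x
  obtain ⟨k1, k2⟩ := k
  obtain ⟨l1, l2⟩ := l
  simp only [Prod.mk_sub_mk, Prod.mk.injEq]
  omega

theorem htI_mem {k : ℤ × ℤ} (hk : (8 : ℤ) ∣ k.1 + 5 * k.2 - 5) {t : Set ℂ} (ht : t ∈ F1) :
    htI k '' t ∈ F1 := by
  obtain ⟨l, hl, rfl | rfl⟩ := ht
  · refine ⟨k - l - (1, 4), ?_, Or.inl (htI_A k l)⟩
    simp only [Prod.fst_sub, Prod.snd_sub]
    omega
  · refine ⟨k - l - (0, 1), ?_, Or.inr (htI_B k l)⟩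
    simp only [Prod.fst_sub, Prod.snd_sub]
    omega

theorem htI_symm {k : ℤ × ℤ} (hk : (8 : ℤ) ∣ k.1 + 5 * k.2 - 5) : IsSymmetry F1 (htI k) := by
  apply Set.Subset.antisymm
  · rintro _ ⟨t, ht, rfl⟩
    exact htI_mem hk ht
  · intro t ht
    refine ⟨htI k '' t, htI_mem hk ht, ?_⟩
    change htI k '' (htI k '' t) = t
    rw [Set.image_image]
    simp [htI_apply]

/-- A tile `g(T)` with a symmetry exchanging `g(D1)` and `g(D2)`. -/
theorem trans_of (h2 : S_comp) {t : Set ℂ} (g f : ℂ ≃ᵢ ℂ) (hg : g '' T = t)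
    (hf : IsSymmetry F1 f) (h12 : f '' (g '' D1) = g '' D2) (h21 : f '' (g '' D2) = g '' D1) :
    ∀ z ∈ t, ∀ w ∈ t, ∃ e : ℂ ≃ᵢ ℂ, IsSymmetry F1 e ∧ e '' t = t ∧
      e '' connectedComponentIn t z = connectedComponentIn t w := by
  obtain ⟨hT, -, hc⟩ := h2
  obtain ⟨c1, c2⟩ := hc g
  have ht : t = g '' D1 ∪ g '' D2 := by rw [← hg, hT, Set.image_union]
  have hft : f '' t = t := by
    rw [ht, Set.image_union, h12, h21, Set.union_comm]
  have hid : ∀ s : Set ℂ, (IsometryEquiv.refl ℂ) '' s = s := by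
    intro s
    ext z
    constructor
    · rintro ⟨w, hw, rfl⟩
      exact hw
    · intro hz
      exact ⟨z, hz, rfl⟩
  have hsid : IsSymmetry F1 (IsometryEquiv.refl ℂ) := by
    rw [IsSymmetry]
    simp only [hid, Set.image_id']
  rw [hg] at c1 c2
  intro z hz w hw
  rw [ht] at hz hw
  rcases hz with hz | hz <;> rcases hw with hw | hw
  · exact ⟨_, hsid, hid _, by rw [hid, c1 z hz, c1 w hw]⟩
  · exact ⟨f, hf, hft, by rw [c1 z hz, c2 w hw, h12]⟩
  · exact ⟨f, hf, hft, by rw [c2 z hz, c1 w hw, h21]⟩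
  · exact ⟨_, hsid, hid _, by rw [hid, c2 z hz, c2 w hw]⟩

theorem htI_hex (k x : ℤ × ℤ) : htI k '' Hex (pos x) = Hex (pos (k - x)) := by
  ext z
  constructor
  · rintro ⟨w, hw, rfl⟩
    exact (htI_mem_hex k x w).2 hw
  · intro hz
    refine ⟨pos k - z, ?_, by simp [htI_apply]⟩
    have := (htI_mem_hex k (k - x) z)
    rw [sub_sub_cancel, htI_apply] at this
    exact this.2 hz

theorem t_trans (h1 : S_tiling) (h2 : S_comp) : S_trans := by
  rintro t ⟨l, hl, rfl | rfl⟩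
  · have hk : (8 : ℤ) ∣ (l + l + (1, 4)).1 + 5 * (l + l + (1, 4)).2 - 5 := by
      simp only [Prod.fst_add, Prod.snd_add]; omega
    refine trans_of h2 (trI l) (htI (l + l + (1, 4))) (trI_T l) (htI_symm hk) ?_ ?_
    · rw [D1, D2, Set.image_union, Set.image_union, Set.image_union, trI_hex, trI_hex, trI_hex,
        trI_hex, htI_hex, htI_hex, Set.union_comm]
      congr 3 <;> ext <;> simp <;> ring
    · rw [D1, D2, Set.image_union, Set.image_union, Set.image_union, trI_hex, trI_hex, trI_hex,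
        trI_hex, htI_hex, htI_hex, Set.union_comm]
      congr 3 <;> ext <;> simp <;> ring
  · have hk : (8 : ℤ) ∣ (l + l + (0, 1)).1 + 5 * (l + l + (0, 1)).2 - 5 := by
      simp only [Prod.fst_add, Prod.snd_add]; omega
    refine trans_of h2 (rfI (l - (2, 0))) (htI (l + l + (0, 1))) (rfI_T l) (htI_symm hk) ?_ ?_
    · rw [D1, D2, Set.image_union, Set.image_union, Set.image_union, rfI_hex, rfI_hex, rfI_hex,
        rfI_hex, htI_hex, htI_hex, Set.union_comm]
      congr 3 <;> ext <;> simp <;> ring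
    · rw [D1, D2, Set.image_union, Set.image_union, Set.image_union, rfI_hex, rfI_hex, rfI_hex,
        rfI_hex, htI_hex, htI_hex, Set.union_comm]
      congr 3 <;> ext <;> simp <;> ring

end Pool.Agent.Q139.ID
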