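import Mathlib

set_option autoImplicit false

/-!
# Pseudo-idiomeric versus idiomeric tilings (MP_ad45c3_co): definitions and statements of the steps

Everything takes place in the Euclidean plane `ℂ`.  The prototile `T` is the union of four regular
hexagons of the honeycomb with centres `0, 1, 4ζ, 4ζ+1` (`ζ = e^{iπ/3}`, neighbouring centres have
distance one); its two components are the dihexes `D1` (centres `0, 1`) and `D2`
(centres `4ζ, 4ζ+1`).
-/

namespace Pool.Agent.Q139.ID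

/-! ### Tilings -/

/-- A countable family of closed sets covering the plane with pairwise disjoint interiors. -/
structure IsTiling (F : Set (Set ℂ)) : Prop where
  countable : F.Countable
  closed : ∀ t ∈ F, IsClosed t
  cover : ⋃₀ F = Set.univ
  disjoint : ∀ t ∈ F, ∀ t' ∈ F, t ≠ t' → Disjoint (interior t) (interior t')

/-- Every tile is congruent to `P` (reflections allowed). -/
def Monohedral (F : Set (Set ℂ)) (P : Set ℂ) : Prop :=
  ∀ t ∈ F, ∃ g : ℂ ≃ᵢ ℂ, g '' P = t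

/-- The isometry `g` maps the tiling onto itself. -/
def IsSymmetry (F : Set (Set ℂ)) (g : ℂ ≃ᵢ ℂ) : Prop :=
  (fun t => g '' t) '' F = F

/-- The symmetry group acts transitively on the tiles. -/
def Isohedral (F : Set (Set ℂ)) : Prop :=
  ∀ t ∈ F, ∀ t' ∈ F, ∃ g : ℂ ≃ᵢ ℂ, IsSymmetry F g ∧ g '' t = t'

/-- For each tile, the symmetries of the tiling mapping the tile onto itself act transitively on
the connected components of the tile. -/
def ComponentTransitive (F : Set (Set ℂ)) : Prop :=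
  ∀ t ∈ F, ∀ z ∈ t, ∀ w ∈ t, ∃ g : ℂ ≃ᵢ ℂ, IsSymmetry F g ∧ g '' t = t ∧
    g '' connectedComponentIn t z = connectedComponentIn t w

/-- Idiomeric: isohedral, and induced tile groups act transitively on the components. -/
def Idiomeric (F : Set (Set ℂ)) : Prop := Isohedral F ∧ ComponentTransitive F

/-- Pseudo-idiomeric: induced tile groups act transitively on the components, but the tiling is
not isohedral. -/
def PseudoIdiomeric (F : Set (Set ℂ)) : Prop := ¬ Isohedral F ∧ ComponentTransitive F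

/-- A closed topological disk. -/
def IsClosedDisk (D : Set ℂ) : Prop := Nonempty (D ≃ₜ Metric.closedBall (0 : ℂ) 1)

/-- The union of two disjoint closed topological disks. -/
def TwoComponents (P : Set ℂ) : Prop :=
  ∃ D D' : Set ℂ, IsClosedDisk D ∧ IsClosedDisk D' ∧ Disjoint D D' ∧ P = D ∪ D'

/-! ### The honeycomb -/

/-- `ζ = e^{iπ/3}`. -/
noncomputable def ze : ℂ := ⟨1 / 2, √3 / 2⟩

/-- The lattice point `a + bζ`. -/
noncomputable def pos (x : ℤ × ℤ) : ℂ := (x.1 : ℂ) + (x.2 : ℂ) * ze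

/-- The closed regular hexagon with centre `c` and inradius `1/2` (the cell of the honeycomb
of the lattice `ℤ + ℤζ` when `c` is a lattice point). -/
def Hex (c : ℂ) : Set ℂ :=
  {z | |(z - c).re| ≤ 1 / 2 ∧ |(z - c).re / 2 + √3 / 2 * (z - c).im| ≤ 1 / 2 ∧
    |(z - c).re / 2 - √3 / 2 * (z - c).im| ≤ 1 / 2}

/-- The cells of the prototile. -/
def S0 : Finset (ℤ × ℤ) := {(0, 0), (1, 0), (0, 4), (1, 4)}

/-- The union of the cells with the given centres. -/
def reg (S : Finset (ℤ × ℤ)) : Set ℂ := {z | ∃ x ∈ S, z ∈ Hex (pos x)}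

/-- The prototile. -/
def T : Set ℂ := reg S0

/-- The two components of the prototile. -/
def D1 : Set ℂ := Hex (pos (0, 0)) ∪ Hex (pos (1, 0))

def D2 : Set ℂ := Hex (pos (0, 4)) ∪ Hex (pos (1, 4))

/-- The lattice point `x` is the centre of an aligned hexagon of a tile. -/
def Occ (F : Set (Set ℂ)) (x : ℤ × ℤ) : Prop :=
  ∃ g : ℂ ≃ᵢ ℂ, g '' T ∈ F ∧ ∃ s ∈ S0, g (pos s) = pos x ∧ g '' Hex (pos s) = Hex (pos x)

/-! ### Integer affine maps -/

/-- The affine map `(x, y) ↦ (a x + b y + u, c x + d y + v)` of `ℤ²`. -/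
structure Aff where
  a : ℤ
  b : ℤ
  c : ℤ
  d : ℤ
  u : ℤ
  v : ℤ
deriving DecidableEq

namespace Aff

def act (A : Aff) (x : ℤ × ℤ) : ℤ × ℤ := (A.a * x.1 + A.b * x.2 + A.u, A.c * x.1 + A.d * x.2 + A.v)

def one : Aff := ⟨1, 0, 0, 1, 0, 0⟩

/-- `A.mul B` is `A` after `B`. -/
def mul (A B : Aff) : Aff :=
  ⟨A.a * B.a + A.b * B.c, A.a * B.b + A.b * B.d, A.c * B.a + A.d * B.c, A.c * B.b + A.d * B.d,
    A.a * B.u + A.b * B.v + A.u, A.c * B.u + A.d * B.v + A.v⟩

/-- The linear part. -/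
def lin (A : Aff) : ℤ × ℤ × ℤ × ℤ := (A.a, A.b, A.c, A.d)

end Aff

/-- The twelve linear symmetries of the lattice `ℤ + ℤζ` in the coordinates `(a, b) ↔ a + bζ`,
as matrices `(a, b, c, d)` (rows `(a, b)` and `(c, d)`). -/
def lin12 : List (ℤ × ℤ × ℤ × ℤ) :=
  [(1, 0, 0, 1), (0, 1, 1, 0), (0, -1, 1, 1), (-1, 0, 1, 1), (-1, -1, 1, 0), (-1, -1, 0, 1),
   (-1, 0, 0, -1), (0, -1, -1, 0), (0, 1, -1, -1), (1, 0, -1, -1), (1, 1, -1, 0), (1, 1, 0, -1)]

/-- The half-turn of the prototile: `(x, y) ↦ (1 - x, 4 - y)`. -/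
def sgA : Aff := ⟨-1, 0, 0, -1, 1, 4⟩

/-! ### Statements -/

/-- (1) The points with a disk of radius `1/2` around them inside `T` are the four centres. -/
def S_ball : Prop :=
  (∀ c : ℂ, Metric.closedBall c (1 / 2) ⊆ Hex c) ∧
  ∀ c : ℂ, Metric.closedBall c (1 / 2) ⊆ T → ∃ s ∈ S0, c = pos s

/-- (2) The symmetry group of `T` has order two. -/
def S_sym : Prop :=
  ∀ g : ℂ ≃ᵢ ℂ, g '' T = T → (∀ z, g z = z) ∨ ∀ z, g z = pos (1, 4) - z

/-- (3) Packing: hexagons of tiles whose centres have distance less than one are equal. -/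
def S_pack : Prop :=
  ∀ F : Set (Set ℂ), IsTiling F → ∀ g h : ℂ ≃ᵢ ℂ, g '' T ∈ F → h '' T ∈ F →
    ∀ s ∈ S0, ∀ t ∈ S0, dist (g (pos s)) (h (pos t)) < 1 →
      g '' T = h '' T ∧ g (pos s) = h (pos t) ∧ g '' Hex (pos s) = h '' Hex (pos t)

/-- (4) Geometry at a vertex: `z` is one of the two points `1/2 ± (√3/2) i` (`d = ±1`),
`p_e = (1/2, d (√3/6) (1 + 2e))`. -/
def S_geo : Prop :=
  ∀ d : ℝ, (d = 1 ∨ d = -1) →
    (∀ e : ℝ, 0 ≤ e → e ≤ 1 / 10 → ∀ c : ℂ, 1 ≤ ‖c‖ → 1 ≤ ‖c - 1‖ →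
      ‖c - ⟨1 / 2, d * (√3 / 6) * (1 + 2 * e)⟩‖ ≤ 1 / √3 →
        ‖c - ⟨1 / 2, d * (√3 / 2)⟩‖ < 1 / 2 ∧ (e = 0 → c = ⟨1 / 2, d * (√3 / 2)⟩)) ∧
    (∀ e : ℝ, 0 < e → (⟨1 / 2, d * (√3 / 6) * (1 + 2 * e)⟩ : ℂ) ∉ Hex 0 ∧
      (⟨1 / 2, d * (√3 / 6) * (1 + 2 * e)⟩ : ℂ) ∉ Hex 1)

/-- (5) A hexagon with centre `z` that contains a vertex of the aligned hexagon with centre `z`
is this aligned hexagon; points of a hexagon have distance at most `1/√3` from the centre. -/
def S_vert : Prop :=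
  (∀ c z : ℂ, z ∈ Hex c → dist z c ≤ 1 / √3) ∧
  ∀ (g : ℂ ≃ᵢ ℂ) (c z p : ℂ), g c = z → p ∈ g '' Hex c → p ∈ Hex z → dist p z = 1 / √3 →
    g '' Hex c = Hex z

/-- (6) If two neighbouring lattice points are occupied, so are their two common neighbours. -/
def S_corner : Prop :=
  ∀ F : Set (Set ℂ), IsTiling F → Monohedral F T → ∀ x d : ℤ × ℤ,
    d.1 ^ 2 + d.1 * d.2 + d.2 ^ 2 = 1 → Occ F x → Occ F (x + d) →
      Occ F (x + (-d.2, d.1 + d.2)) ∧ Occ F (x + (d.1 + d.2, -d.1))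

/-- (7) Every lattice point is occupied. -/
def S_all : Prop :=
  ∀ F : Set (Set ℂ), IsTiling F → Monohedral F T → T ∈ F → ∀ x, Occ F x

/-- (8) Every symmetry of the tiling is a symmetry of the lattice. -/
def S_align : Prop :=
  ∀ F : Set (Set ℂ), IsTiling F → Monohedral F T → T ∈ F → ∀ g : ℂ ≃ᵢ ℂ, IsSymmetry F g →
    ∃ A : Aff, A.lin ∈ lin12 ∧ ∀ x, g (pos x) = pos (A.act x)

/-- (9) The combinatorial contradiction. -/
def S_comb : Prop :=
  ∀ G : Set Aff, (∀ A ∈ G, ∀ B ∈ G, A.mul B ∈ G) → (∀ A ∈ G, ∀ B, A.mul B = Aff.one → B ∈ G) →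
    sgA ∈ G → (∀ A ∈ G, (∃ s ∈ S0, A.act s ∈ S0) → A = Aff.one ∨ A = sgA) →
    (∀ x, ∃ A ∈ G, A.lin ∈ lin12 ∧ ∃ s ∈ S0, A.act s = x) → False

/-- (10) There is no idiomeric tiling with prototile `T`. -/
def S_noidio : Prop :=
  ¬ ∃ F : Set (Set ℂ), IsTiling F ∧ Monohedral F T ∧ Idiomeric F

/-- (11) The cells of the honeycomb cover the plane, and unions of disjoint sets of cells have
disjoint interiors. -/
def S_cover : Prop :=
  (∀ z : ℂ, ∃ x : ℤ × ℤ, z ∈ Hex (pos x)) ∧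
  (∀ S S' : Finset (ℤ × ℤ), Disjoint S S' → Disjoint (interior (reg S)) (interior (reg S'))) ∧
  ∀ S : Finset (ℤ × ℤ), IsClosed (reg S)

/-- The cells of the tiles of the pseudo-idiomeric tiling. -/
def cellsA (l : ℤ × ℤ) : Finset (ℤ × ℤ) := S0.image (fun s => s + l)

def cellsB (l : ℤ × ℤ) : Finset (ℤ × ℤ) := S0.image (fun s => (s.2, s.1) + l - (2, 0))

/-- The pseudo-idiomeric tiling: the translates of `T` and of a mirror image of `T` by the
lattice of all `a + bζ` with `a + 5b` divisible by `8`. -/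
def F1 : Set (Set ℂ) :=
  {t | ∃ l : ℤ × ℤ, (8 : ℤ) ∣ l.1 + 5 * l.2 ∧ (t = reg (cellsA l) ∨ t = reg (cellsB l))}

/-- (12) `F1` is a tiling with prototile `T`. -/
def S_tiling : Prop := IsTiling F1 ∧ Monohedral F1 T

/-- (13) The connected components of the copies of `T`; the two components are disjoint closed
topological disks. -/
def S_comp : Prop :=
  T = D1 ∪ D2 ∧ Disjoint D1 D2 ∧
  ∀ g : ℂ ≃ᵢ ℂ, (∀ z ∈ g '' D1, connectedComponentIn (g '' T) z = g '' D1) ∧
    (∀ z ∈ g '' D2, connectedComponentIn (g '' T) z = g '' D2)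

/-- (14) The components are closed topological disks. -/
def S_disk : Prop := IsClosedDisk D1 ∧ IsClosedDisk D2

/-- (15) The stabilisers of the tiles of `F1` exchange the components. -/
def S_trans : Prop := ComponentTransitive F1

end Pool.Agent.Q139.ID
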